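import Mathlib

set_option autoImplicit false

/-!
# ED-7: encoded structures, definitions

A structure with relations of the kinds `κ` (arity `ar κ`) on `m` points is encoded in a structure `U`, the points of which
are: the `m` points (`pt`) and for every kind `κ` and every `ar κ`-tuple of points a path (`nx`) of `D * (ar κ + 1)` nodes
(`nd (κ, j)`, `j` = the number of the node). The node number `D * (i + 1)` is joined (`co`) to the `i`-th coordinate of the
tuple. The relation holds if the first node (the head of the path) is marked (`mar`).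
-/

namespace Pool.Agent.Helper6.ED

/-- A finite set of kinds with arities. -/
structure Kn where
  ι : Type
  fin : Fintype ι
  ar : ι → ℕ

instance (s : Kn) : Fintype s.ι := s.fin

/-- The relations of an encoded structure. -/
structure Rw (s : Kn) (D : ℕ) (U : Type) where
  pt : U → Prop
  nd : (Σ κ : s.ι, Fin (D * (s.ar κ + 1))) → U → Prop
  mar : U → Prop
  nx : U → U → Prop
  co : U → U → Prop

variable {s : Kn} {D : ℕ} {U : Type}

/-- The kinds of points. -/
abbrev Kd (s : Kn) (D : ℕ) : Type := Option (Σ κ : s.ι, Fin (D * (s.ar κ + 1)))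

/-- `x` is a point of kind `q`. -/
def Rw.kd (A : Rw s D U) : Kd s D → U → Prop
  | none, x => A.pt x
  | some q, x => A.nd q x

/-- `x` is a node number `j` of kind `κ`. -/
def Rw.Nd (A : Rw s D U) (κ : s.ι) (j : ℕ) (x : U) : Prop :=
  ∃ h : j < D * (s.ar κ + 1), A.nd ⟨κ, ⟨j, h⟩⟩ x

/-- `x` is reached from `c` by `j` steps. -/
def Rw.At (A : Rw s D U) : ℕ → U → U → Prop
  | 0, c, x => c = x
  | j + 1, c, x => ∃ y, A.At j c y ∧ A.nx y x

/-- The `i`-th coordinate of the head `c` is `w`. -/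
def Rw.Co (A : Rw s D U) (c : U) (i : ℕ) (w : U) : Prop :=
  ∃ x, A.At (D * (i + 1)) c x ∧ A.co x w

/-- **Encoded structures.** -/
structure Rw.Ax (A : Rw s D U) : Prop where
  kind : ∀ x, ∃! q : Kd s D, A.kd q x
  two : ∃ x y, A.pt x ∧ A.pt y ∧ x ≠ y
  nx_nd : ∀ x y, A.nx x y → ∃ κ j, A.Nd κ j x ∧ A.Nd κ (j + 1) y
  nx_ex : ∀ κ j x, A.Nd κ j x → j + 1 < D * (s.ar κ + 1) → ∃! y, A.nx x y
  nx_inj : ∀ κ j y, A.Nd κ (j + 1) y → ∃! x, A.nx x y
  co_nd : ∀ x w, A.co x w → (∃ (κ : s.ι) (i : Fin (s.ar κ)), A.Nd κ (D * (i + 1)) x) ∧ A.pt w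
  co_ex : ∀ (κ : s.ι) (i : Fin (s.ar κ)) x, A.Nd κ (D * (i + 1)) x → ∃! w, A.co x w
  cells : ∀ (κ : s.ι) (v : Fin (s.ar κ) → U), (∀ i, A.pt (v i)) →
    ∃! c, A.Nd κ 0 c ∧ ∀ i : Fin (s.ar κ), A.Co c i (v i)

/-- The relation of kind `κ` on the points: the head of the path of the tuple `v` is marked. -/
def Rw.Rl (A : Rw s D U) (κ : s.ι) (v : Fin (s.ar κ) → U) : Prop :=
  ∃ c, A.Nd κ 0 c ∧ A.mar c ∧ ∀ i : Fin (s.ar κ), A.Co c i (v i)

/-- The number of points of an encoded structure with `m` points. -/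
def NN (s : Kn) (D m : ℕ) : ℕ := m + ∑ κ : s.ι, D * (s.ar κ + 1) * m ^ s.ar κ

end Pool.Agent.Helper6.ED
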