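import Mathlib
import Pool.Agent.Helper6.ED.EncDefs

set_option autoImplicit false

/-!
# ED-9: the number of points of an encoded structure

`card_head`: from a head `c` of kind `κ` there is exactly one `x` with `At j c x` for `j < D * (ar κ + 1)`, a node number
`j` of kind `κ` (`nx_ex`, `nx_nd`, uniqueness of the kind). So `c` has exactly one `i`-th coordinate (`co_ex`), a point
(`co_nd`). With `cells`: the heads of kind `κ` are in bijection with `Fin (ar κ) → {x // pt x}`.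
`card_Nd`: `nx` is a bijection between the nodes number `j` and `j + 1` of kind `κ` (`nx_ex`, `nx_nd`, `nx_inj`).
`card_U`: `U` is the disjoint union of the points of the different kinds (`kind`).
`card_co`: `co x w` determines `w`, and the `x` that occur are the nodes number `D * (i + 1)`: their number is
`∑ κ, ar κ * m ^ ar κ` (for `D > 0` they are different for different `(κ, i)`), only `≤` is needed.
-/

namespace Pool.Agent.Helper6.ED

variable {s : Kn} {D : ℕ} {U : Type}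

namespace EncCount

theorem nd_unique {A : Rw s D U} (hA : A.Ax) {κ κ' : s.ι} {j j' : ℕ} {x : U}
    (h : A.Nd κ j x) (h' : A.Nd κ' j' x) : κ = κ' ∧ j = j' := by
  obtain ⟨hj, h⟩ := h
  obtain ⟨hj', h'⟩ := h'
  obtain ⟨q, -, hq⟩ := hA.kind x
  have e1 := hq (some ⟨κ, ⟨j, hj⟩⟩) h
  have e2 := hq (some ⟨κ', ⟨j', hj'⟩⟩) h'
  have e3 := e1.trans e2.symm
  have e4 := Option.some.inj e3
  obtain ⟨rfl, e5⟩ := Sigma.mk.inj_iff.1 e4
  have e6 := eq_of_heq e5
  exact ⟨rfl, congrArg Fin.val e6⟩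

theorem nx_step {A : Rw s D U} (hA : A.Ax) {κ : s.ι} {j : ℕ} {x y : U}
    (h : A.Nd κ j x) (hxy : A.nx x y) : A.Nd κ (j + 1) y := by
  obtain ⟨κ', j', h1, h2⟩ := hA.nx_nd x y hxy
  obtain ⟨rfl, rfl⟩ := nd_unique hA h h1
  exact h2

theorem nx_back {A : Rw s D U} (hA : A.Ax) {κ : s.ι} {j : ℕ} {x y : U}
    (h : A.Nd κ (j + 1) y) (hxy : A.nx x y) : A.Nd κ j x := by
  obtain ⟨κ', j', h1, h2⟩ := hA.nx_nd x y hxy
  obtain ⟨rfl, e⟩ := nd_unique hA h h2
  obtain rfl : j = j' := by omega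
  exact h1

theorem at_nd {A : Rw s D U} (hA : A.Ax) {κ : s.ι} {c : U} (hc : A.Nd κ 0 c) :
    ∀ (j : ℕ) (x : U), A.At j c x → A.Nd κ j x
  | 0, x, h => by
    have h' : c = x := h
    rw [← h']; exact hc
  | j + 1, x, h => by
    obtain ⟨y, hy, hyx⟩ := h
    exact nx_step hA (at_nd hA hc j y hy) hyx

theorem at_unique {A : Rw s D U} (hA : A.Ax) {κ : s.ι} {c : U} (hc : A.Nd κ 0 c) :
    ∀ (j : ℕ), j < D * (s.ar κ + 1) → ∃! x, A.At j c x
  | 0, _ => ⟨c, rfl, fun y hy => (show c = y from hy).symm⟩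
  | j + 1, hj => by
    obtain ⟨y, hy, hu⟩ := at_unique hA hc j (by omega)
    obtain ⟨x, hx, hxu⟩ := hA.nx_ex κ j y (at_nd hA hc j y hy) hj
    refine ⟨x, ⟨y, hy, hx⟩, ?_⟩
    rintro x' ⟨y', hy', hx'⟩
    obtain rfl := hu y' hy'
    exact hxu x' hx'

theorem pos_lt (hD : 0 < D) {κ : s.ι} (i : Fin (s.ar κ)) : D * ((i : ℕ) + 1) < D * (s.ar κ + 1) :=
  Nat.mul_lt_mul_of_pos_left (by omega) hD

theorem co_unique {A : Rw s D U} (hA : A.Ax) (hD : 0 < D) {κ : s.ι} {c : U} (hc : A.Nd κ 0 c)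
    (i : Fin (s.ar κ)) : ∃! w, A.Co c i w := by
  obtain ⟨x, hx, hxu⟩ := at_unique hA hc _ (pos_lt hD i)
  obtain ⟨w, hw, hwu⟩ := hA.co_ex κ i x (at_nd hA hc _ x hx)
  refine ⟨w, ⟨x, hx, hw⟩, ?_⟩
  rintro w' ⟨x', hx', hw'⟩
  obtain rfl := hxu x' hx'
  exact hwu w' hw'

theorem co_pt {A : Rw s D U} (hA : A.Ax) {c w : U} {i : ℕ} (h : A.Co c i w) : A.pt w := by
  obtain ⟨x, -, hx⟩ := h
  exact (hA.co_nd x w hx).2

end EncCount

open EncCount

theorem card_head [Finite U] (A : Rw s D U) (hA : A.Ax) (hD : 0 < D) (κ : s.ι) :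
    Nat.card {x : U // A.Nd κ 0 x} = Nat.card {x : U // A.pt x} ^ s.ar κ := by
  classical
  have hcell : ∀ v : Fin (s.ar κ) → {x : U // A.pt x},
      ∃ c : {x : U // A.Nd κ 0 x}, ∀ i : Fin (s.ar κ), A.Co c.1 i (v i).1 := fun v => by
    obtain ⟨c, ⟨hc, h⟩, -⟩ := hA.cells κ (fun i => (v i).1) fun i => (v i).2
    exact ⟨⟨c, hc⟩, h⟩
  choose f hf using hcell
  have hbij : Function.Bijective f := by
    constructor
    · intro v v' hv
      funext i
      apply Subtype.ext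
      have h1 := hf v i
      have h2 := hf v' i
      rw [← hv] at h2
      exact (co_unique hA hD (f v).2 i).unique h1 h2
    · intro c
      have hw : ∀ i : Fin (s.ar κ), ∃ w : {x : U // A.pt x}, A.Co c.1 i w.1 := fun i => by
        obtain ⟨w, hw, -⟩ := co_unique hA hD c.2 i
        exact ⟨⟨w, co_pt hA hw⟩, hw⟩
      choose v hv using hw
      refine ⟨v, ?_⟩
      apply Subtype.ext
      exact (hA.cells κ (fun i => (v i).1) fun i => (v i).2).unique ⟨(f v).2, hf v⟩ ⟨c.2, hv⟩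
  have h1 := Nat.card_congr (Equiv.ofBijective f hbij)
  rw [← h1, Nat.card_fun]
  simp

theorem card_Nd [Finite U] (A : Rw s D U) (hA : A.Ax) (hD : 0 < D) (κ : s.ι) (j : ℕ)
    (hj : j < D * (s.ar κ + 1)) :
    Nat.card {x : U // A.Nd κ j x} = Nat.card {x : U // A.pt x} ^ s.ar κ := by
  classical
  induction j with
  | zero => exact card_head A hA hD κ
  | succ j ih =>
    rw [← ih (by omega)]
    have hnx : ∀ x : {x : U // A.Nd κ j x}, ∃ y : {x : U // A.Nd κ (j + 1) x}, A.nx x.1 y.1 :=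
      fun x => by
        obtain ⟨y, hy, -⟩ := hA.nx_ex κ j x.1 x.2 hj
        exact ⟨⟨y, nx_step hA x.2 hy⟩, hy⟩
    choose f hf using hnx
    have hbij : Function.Bijective f := by
      constructor
      · intro x x' hx
        apply Subtype.ext
        have h1 := hf x
        have h2 := hf x'
        rw [← hx] at h2
        exact (hA.nx_inj κ j (f x).1 (f x).2).unique h1 h2
      · intro y
        obtain ⟨x, hx, -⟩ := hA.nx_inj κ j y.1 y.2
        have hxN : A.Nd κ j x := nx_back hA y.2 hx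
        refine ⟨⟨x, hxN⟩, ?_⟩
        apply Subtype.ext
        exact (hA.nx_ex κ j x hxN hj).unique (hf ⟨x, hxN⟩) hx
    exact (Nat.card_congr (Equiv.ofBijective f hbij)).symm

theorem card_U [Finite U] (A : Rw s D U) (hA : A.Ax) (hD : 0 < D) :
    Nat.card U = NN s D (Nat.card {x : U // A.pt x}) := by
  classical
  have hbij : Function.Bijective (fun p : (Σ q : Kd s D, {x : U // A.kd q x}) => p.2.1) := by
    constructor
    · rintro ⟨q, x, hx⟩ ⟨q', x', hx'⟩ h
      simp only at h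
      subst h
      obtain rfl := (hA.kind x).unique hx hx'
      rfl
    · intro x
      obtain ⟨q, hq, -⟩ := hA.kind x
      exact ⟨⟨q, x, hq⟩, rfl⟩
  rw [← Nat.card_congr (Equiv.ofBijective _ hbij), Nat.card_sigma, Fintype.sum_option,
    Fintype.sum_sigma]
  unfold NN
  congr 1
  refine Finset.sum_congr rfl fun κ _ => ?_
  have h : ∀ j : Fin (D * (s.ar κ + 1)),
      Nat.card {x : U // A.kd (some ⟨κ, j⟩) x} = Nat.card {x : U // A.pt x} ^ s.ar κ := fun j => by
    rw [← card_Nd A hA hD κ j j.2]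
    refine Nat.card_congr (Equiv.subtypeEquivRight fun x => ?_)
    constructor
    · intro hx
      exact ⟨j.2, hx⟩
    · rintro ⟨hj, hx⟩
      exact hx
  rw [Finset.sum_congr rfl fun j _ => h j]
  simp

theorem card_nx [Finite U] (A : Rw s D U) (hA : A.Ax) :
    Nat.card {p : U × U // A.nx p.1 p.2} ≤ Nat.card U := by
  refine Nat.card_le_card_of_injective (fun p => p.1.2) ?_
  rintro ⟨⟨x, y⟩, h⟩ ⟨⟨x', y'⟩, h'⟩ e
  simp only at e h h'
  subst e
  obtain ⟨κ, j, -, h2⟩ := hA.nx_nd x y h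
  obtain rfl := (hA.nx_inj κ j y h2).unique h h'
  rfl

theorem card_co [Finite U] (A : Rw s D U) (hA : A.Ax) (hD : 0 < D) :
    D * Nat.card {p : U × U // A.co p.1 p.2} ≤ Nat.card U := by
  classical
  have hex : ∀ p : {p : U × U // A.co p.1 p.2},
      ∃ q : (Σ (κ : s.ι) (i : Fin (s.ar κ)), {x : U // A.Nd κ (D * ((i : ℕ) + 1)) x}),
        q.2.2.1 = p.1.1 := by
    rintro ⟨⟨x, w⟩, h⟩
    obtain ⟨⟨κ, i, hi⟩, -⟩ := hA.co_nd x w h
    exact ⟨⟨κ, i, x, hi⟩, rfl⟩
  choose f hf using hex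
  have hinj : Function.Injective f := by
    rintro ⟨⟨x, w⟩, h⟩ ⟨⟨x', w'⟩, h'⟩ e
    have h1 := hf ⟨⟨x, w⟩, h⟩
    have h2 := hf ⟨⟨x', w'⟩, h'⟩
    rw [← e] at h2
    have h3 := h1.symm.trans h2
    simp only at h3
    subst h3
    obtain ⟨⟨κ, i, hi⟩, -⟩ := hA.co_nd x w h
    obtain rfl := (hA.co_ex κ i x hi).unique h h'
    rfl
  have h1 := Nat.card_le_card_of_injective f hinj
  rw [Nat.card_sigma] at h1
  have h2 : ∀ κ : s.ι, Nat.card (Σ i : Fin (s.ar κ), {x : U // A.Nd κ (D * ((i : ℕ) + 1)) x}) =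
      s.ar κ * Nat.card {x : U // A.pt x} ^ s.ar κ := fun κ => by
    rw [Nat.card_sigma, Finset.sum_congr rfl fun i _ => card_Nd A hA hD κ _ (pos_lt hD i)]
    simp
  rw [Finset.sum_congr rfl fun κ _ => h2 κ] at h1
  rw [card_U A hA hD]
  unfold NN
  refine (Nat.mul_le_mul_left D h1).trans ?_
  rw [Finset.mul_sum]
  refine (Finset.sum_le_sum fun κ _ => ?_).trans (Nat.le_add_left _ _)
  rw [← mul_assoc]
  exact Nat.mul_le_mul_right _ (Nat.mul_le_mul_left _ (Nat.le_succ _))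

end Pool.Agent.Helper6.ED
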