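import Mathlib
import Pool.Agent.Helper72.WT.ULang
import Pool.Agent.Helper6.ED.EncDefs

set_option autoImplicit false

/-! ED-7: the language of encoded structures. -/

namespace Pool.Agent.Helper6.ED

open FirstOrder FirstOrder.Language

/-- Relation symbols of encoded structures. -/
inductive UR (s : Kn) (D : ℕ) : ℕ → Type
  | pt : UR s D 1
  | nd (q : Σ κ : s.ι, Fin (D * (s.ar κ + 1))) : UR s D 1
  | mar : UR s D 1
  | nx : UR s D 2
  | co : UR s D 2

/-- The language of encoded structures. -/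
abbrev LU (s : Kn) (D : ℕ) : FirstOrder.Language.{0, 0} := ⟨fun _ => Empty, UR s D⟩

/-- The relations of an `LU`-structure. -/
def toRw (s : Kn) (D : ℕ) (U : Type) [(LU s D).Structure U] : Rw s D U where
  pt := fun x => Structure.RelMap (L := LU s D) UR.pt ![x]
  nd := fun q x => Structure.RelMap (L := LU s D) (UR.nd q) ![x]
  mar := fun x => Structure.RelMap (L := LU s D) UR.mar ![x]
  nx := fun x y => Structure.RelMap (L := LU s D) UR.nx ![x, y]
  co := fun x w => Structure.RelMap (L := LU s D) UR.co ![x, w]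

/-- The relation of a symbol. -/
def relRw {s : Kn} {D : ℕ} {U : Type} (A : Rw s D U) : ∀ {n : ℕ}, UR s D n → (Fin n → U) → Prop
  | _, UR.pt, v => A.pt (v 0)
  | _, UR.nd q, v => A.nd q (v 0)
  | _, UR.mar, v => A.mar (v 0)
  | _, UR.nx, v => A.nx (v 0) (v 1)
  | _, UR.co, v => A.co (v 0) (v 1)

/-- The structure given by relations. -/
@[instance_reducible]
def ofRw {s : Kn} {D : ℕ} {U : Type} (A : Rw s D U) : (LU s D).Structure U where
  funMap := fun f _ => f.elim
  RelMap := fun R v => relRw A R v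

lemma toRw_ofRw {s : Kn} {D : ℕ} {U : Type} (A : Rw s D U) :
    @toRw s D U (ofRw A) = A := rfl

lemma isEmpty_LU (s : Kn) (D n : ℕ) : IsEmpty ((LU s D).Functions n) :=
  inferInstanceAs (IsEmpty Empty)

lemma finite_LU (s : Kn) (D : ℕ) : Finite (Σ n, (LU s D).Relations n) := by
  have h : Function.Surjective (fun q : (Σ κ : s.ι, Fin (D * (s.ar κ + 1))) ⊕ Fin 4 =>
      (match q with
      | Sum.inl q => ⟨1, UR.nd q⟩
      | Sum.inr 0 => ⟨1, UR.pt⟩
      | Sum.inr 1 => ⟨1, UR.mar⟩
      | Sum.inr 2 => ⟨2, UR.nx⟩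
      | Sum.inr 3 => ⟨2, UR.co⟩ : Σ n, (LU s D).Relations n)) := by
    rintro ⟨n, R⟩
    cases R with
    | nd q => exact ⟨Sum.inl q, rfl⟩
    | pt => exact ⟨Sum.inr 0, rfl⟩
    | mar => exact ⟨Sum.inr 1, rfl⟩
    | nx => exact ⟨Sum.inr 2, rfl⟩
    | co => exact ⟨Sum.inr 3, rfl⟩
  exact Finite.of_surjective _ h

lemma binary_LU (s : Kn) (D n : ℕ) (hn : 2 < n) : IsEmpty ((LU s D).Relations n) := by
  refine ⟨fun R => ?_⟩
  cases R <;> omega

/-- The kinds for a relational language, with an additional kind of arity `C + 1`. -/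
noncomputable def knOf (L : FirstOrder.Language.{0, 0}) (hf : Finite (Σ n, L.Relations n))
    (C : ℕ) : Kn where
  ι := Option (Σ n, L.Relations n)
  fin := @Fintype.ofFinite _ inferInstance
  ar := fun κ => match κ with
    | none => C + 1
    | some R => R.1

end Pool.Agent.Helper6.ED
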