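import Mathlib
import Pool.Agent.Helper87.AU.UDef
import Pool.Agent.Helper72.WT.AxDef
import Pool.Agent.Helper6.ED.EncLang

set_option autoImplicit false

/-!
# ED-8: the axioms of encoded structures are definable

Every property used in `Rw.Ax` is `UDef (LU s D)` (compare `Helper72/WT/AxDef.lean`, where `axd_exUnique`,
`axd_allNat`, `axd_exNat` are general): `Nd κ j` (`j` arbitrary: `const False` unless `j < D * (ar κ + 1)`), `At j` by
induction on `j`, `Co`; closure lemmas of `Helper87/AU/UDef.lean`. Quantifiers over `j` in `nx_nd`, `nx_ex`, `nx_inj`: for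
fixed `κ` only `j < D * (ar κ + 1)` matter.
-/

namespace Pool.Agent.Helper6.ED

open FirstOrder FirstOrder.Language Pool.Agent.Helper87.AU

section Basic

variable (s : Kn) (D : ℕ)

theorem ea_rel1 (R : UR s D 1) (α : Type) (a : α) :
    UDef (LU s D) α (fun _ _ v => Structure.RelMap (L := LU s D) R ![v a]) := by
  refine (UDef.rel (L := LU s D) R (fun _ => Term.var a)).congr fun M _ v => ?_
  have : (fun i : Fin 1 => ((fun _ => Term.var a : Fin 1 → (LU s D).Term α) i).realize v) =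
      ![v a] := by
    funext i
    fin_cases i
    rfl
  rw [this]

theorem ea_rel2 (R : UR s D 2) (α : Type) (a b : α) :
    UDef (LU s D) α (fun _ _ v => Structure.RelMap (L := LU s D) R ![v a, v b]) := by
  refine (UDef.rel (L := LU s D) R ![Term.var a, Term.var b]).congr fun M _ v => ?_
  have : (fun i : Fin 2 => ((![Term.var a, Term.var b] : Fin 2 → (LU s D).Term α) i).realize v) =
      ![v a, v b] := by
    funext i
    fin_cases i <;> rfl
  rw [this]

variable {s D}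

theorem ea_nd (q : Σ κ : s.ι, Fin (D * (s.ar κ + 1))) (α : Type) (a : α) :
    UDef (LU s D) α (fun U _ v => (toRw s D U).nd q (v a)) := ea_rel1 s D (UR.nd q) α a

theorem ea_pt (α : Type) (a : α) :
    UDef (LU s D) α (fun U _ v => (toRw s D U).pt (v a)) := ea_rel1 s D UR.pt α a

theorem ea_mar (α : Type) (a : α) :
    UDef (LU s D) α (fun U _ v => (toRw s D U).mar (v a)) := ea_rel1 s D UR.mar α a

theorem ea_nx (α : Type) (a b : α) :
    UDef (LU s D) α (fun U _ v => (toRw s D U).nx (v a) (v b)) := ea_rel2 s D UR.nx α a b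

theorem ea_co (α : Type) (a b : α) :
    UDef (LU s D) α (fun U _ v => (toRw s D U).co (v a) (v b)) := ea_rel2 s D UR.co α a b

theorem ea_Nd (κ : s.ι) (j : ℕ) (α : Type) (a : α) :
    UDef (LU s D) α (fun U _ v => (toRw s D U).Nd κ j (v a)) := by
  by_cases hj : j < D * (s.ar κ + 1)
  · exact (ea_nd ⟨κ, ⟨j, hj⟩⟩ α a).congr fun M _ v => ⟨fun h => ⟨hj, h⟩, fun ⟨_, h⟩ => h⟩
  · exact (UDef.const False).congr fun M _ v => ⟨fun h => h.elim, fun ⟨h, _⟩ => hj h⟩

theorem ea_kd (q : Kd s D) (α : Type) (a : α) :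
    UDef (LU s D) α (fun U _ v => (toRw s D U).kd q (v a)) := by
  rcases q with _ | q
  · exact ea_pt α a
  · exact ea_nd q α a

theorem ea_At (j : ℕ) : ∀ (α : Type) (a b : α),
    UDef (LU s D) α (fun U _ v => (toRw s D U).At j (v a) (v b)) := by
  induction j with
  | zero =>
    intro α a b
    exact UDef.varEq a b
  | succ j ih =>
    intro α a b
    refine UDef.exu (P := fun U _ v y => (toRw s D U).At j (v a) y ∧ (toRw s D U).nx y (v b)) ?_
    exact (ih _ (Sum.inl a) (Sum.inr ())).and (ea_nx _ (Sum.inr ()) (Sum.inl b))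

theorem ea_Co (i : ℕ) (α : Type) (a b : α) :
    UDef (LU s D) α (fun U _ v => (toRw s D U).Co (v a) i (v b)) := by
  refine UDef.exu (P := fun U _ v x => (toRw s D U).At (D * (i + 1)) (v a) x ∧
    (toRw s D U).co x (v b)) ?_
  exact (ea_At _ _ (Sum.inl a) (Sum.inr ())).and (ea_co _ (Sum.inr ()) (Sum.inl b))

end Basic

section Axioms

variable (s : Kn) (D : ℕ)

theorem ea_kind : UDef (LU s D) Empty (fun U _ _ => ∀ x, ∃! q : Kd s D, (toRw s D U).kd q x) := by
  refine UDef.allu (P := fun U _ _ x => ∃! q : Kd s D, (toRw s D U).kd q x) ?_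
  refine UDef.exFin fun q => (ea_kd q _ (Sum.inr ())).and (UDef.allFin fun r => ?_)
  exact (ea_kd r _ (Sum.inr ())).imp (UDef.const _)

theorem ea_two : UDef (LU s D) Empty
    (fun U _ _ => ∃ x y, (toRw s D U).pt x ∧ (toRw s D U).pt y ∧ x ≠ y) := by
  refine UDef.exu (P := fun U _ _ x => ∃ y, (toRw s D U).pt x ∧ (toRw s D U).pt y ∧ x ≠ y) ?_
  refine UDef.exu (P := fun U _ v y => (toRw s D U).pt (v (Sum.inr ())) ∧ (toRw s D U).pt y ∧
    v (Sum.inr ()) ≠ y) ?_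
  exact (ea_pt _ (Sum.inl (Sum.inr ()))).and ((ea_pt _ (Sum.inr ())).and
    (UDef.varEq (Sum.inl (Sum.inr ())) (Sum.inr ())).not)

theorem ea_nx_nd : UDef (LU s D) Empty (fun U _ _ => ∀ x y, (toRw s D U).nx x y →
    ∃ κ j, (toRw s D U).Nd κ j x ∧ (toRw s D U).Nd κ (j + 1) y) := by
  refine UDef.allu (P := fun U _ _ x => ∀ y, (toRw s D U).nx x y →
    ∃ κ j, (toRw s D U).Nd κ j x ∧ (toRw s D U).Nd κ (j + 1) y) ?_
  refine UDef.allu (P := fun U _ v y => (toRw s D U).nx (v (Sum.inr ())) y →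
    ∃ κ j, (toRw s D U).Nd κ j (v (Sum.inr ())) ∧ (toRw s D U).Nd κ (j + 1) y) ?_
  refine (ea_nx _ (Sum.inl (Sum.inr ())) (Sum.inr ())).imp (UDef.exFin fun κ => ?_)
  refine Pool.Agent.Helper72.WT.axd_exNat (D * (s.ar κ + 1)) (P := fun j U _ v =>
    (toRw s D U).Nd κ j (v (Sum.inl (Sum.inr ()))) ∧
      (toRw s D U).Nd κ (j + 1) (v (Sum.inr ()))) ?_ ?_
  · intro j
    exact (ea_Nd κ j _ (Sum.inl (Sum.inr ()))).and (ea_Nd κ (j + 1) _ (Sum.inr ()))
  · intro j M _ v hj h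
    exact absurd h.1.1 (not_lt.2 hj.le)

theorem ea_nx_ex : UDef (LU s D) Empty (fun U _ _ => ∀ κ j x, (toRw s D U).Nd κ j x →
    j + 1 < D * (s.ar κ + 1) → ∃! y, (toRw s D U).nx x y) := by
  refine UDef.allFin fun κ => ?_
  refine Pool.Agent.Helper72.WT.axd_allNat (D * (s.ar κ + 1)) (P := fun j U _ _ =>
    ∀ x, (toRw s D U).Nd κ j x → j + 1 < D * (s.ar κ + 1) → ∃! y, (toRw s D U).nx x y) ?_ ?_
  · intro j
    refine UDef.allu (P := fun U _ _ x => (toRw s D U).Nd κ j x →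
      j + 1 < D * (s.ar κ + 1) → ∃! y, (toRw s D U).nx x y) ?_
    refine (ea_Nd κ j _ (Sum.inr ())).imp ((UDef.const _).imp ?_)
    refine Pool.Agent.Helper72.WT.axd_exUnique (P := fun U _ v y =>
      (toRw s D U).nx (v (Sum.inr ())) y) ?_
    exact ea_nx _ (Sum.inl (Sum.inr ())) (Sum.inr ())
  · intro j M _ v hj x h
    exact absurd h.1 (not_lt.2 hj.le)

theorem ea_nx_inj : UDef (LU s D) Empty (fun U _ _ => ∀ κ j y, (toRw s D U).Nd κ (j + 1) y →
    ∃! x, (toRw s D U).nx x y) := by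
  refine UDef.allFin fun κ => ?_
  refine Pool.Agent.Helper72.WT.axd_allNat (D * (s.ar κ + 1)) (P := fun j U _ _ =>
    ∀ y, (toRw s D U).Nd κ (j + 1) y → ∃! x, (toRw s D U).nx x y) ?_ ?_
  · intro j
    refine UDef.allu (P := fun U _ _ y => (toRw s D U).Nd κ (j + 1) y →
      ∃! x, (toRw s D U).nx x y) ?_
    refine (ea_Nd κ (j + 1) _ (Sum.inr ())).imp ?_
    refine Pool.Agent.Helper72.WT.axd_exUnique (P := fun U _ v x =>
      (toRw s D U).nx x (v (Sum.inr ()))) ?_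
    exact ea_nx _ (Sum.inr ()) (Sum.inl (Sum.inr ()))
  · intro j M _ v hj x h
    exact absurd h.1 (not_lt.2 (hj.le.trans (Nat.le_succ j)))

theorem ea_co_nd : UDef (LU s D) Empty (fun U _ _ => ∀ x w, (toRw s D U).co x w →
    (∃ (κ : s.ι) (i : Fin (s.ar κ)), (toRw s D U).Nd κ (D * (i + 1)) x) ∧
      (toRw s D U).pt w) := by
  refine UDef.allu (P := fun U _ _ x => ∀ w, (toRw s D U).co x w →
    (∃ (κ : s.ι) (i : Fin (s.ar κ)), (toRw s D U).Nd κ (D * (i + 1)) x) ∧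
      (toRw s D U).pt w) ?_
  refine UDef.allu (P := fun U _ v w => (toRw s D U).co (v (Sum.inr ())) w →
    (∃ (κ : s.ι) (i : Fin (s.ar κ)), (toRw s D U).Nd κ (D * (i + 1)) (v (Sum.inr ()))) ∧
      (toRw s D U).pt w) ?_
  exact (ea_co _ (Sum.inl (Sum.inr ())) (Sum.inr ())).imp
    ((UDef.exFin fun κ => UDef.exFin fun i => ea_Nd κ _ _ (Sum.inl (Sum.inr ()))).and
      (ea_pt _ (Sum.inr ())))

theorem ea_co_ex : UDef (LU s D) Empty (fun U _ _ => ∀ (κ : s.ι) (i : Fin (s.ar κ)) x,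
    (toRw s D U).Nd κ (D * (i + 1)) x → ∃! w, (toRw s D U).co x w) := by
  refine UDef.allFin fun κ => UDef.allFin fun i => ?_
  refine UDef.allu (P := fun U _ _ x => (toRw s D U).Nd κ (D * (i + 1)) x →
    ∃! w, (toRw s D U).co x w) ?_
  refine (ea_Nd κ _ _ (Sum.inr ())).imp ?_
  refine Pool.Agent.Helper72.WT.axd_exUnique (P := fun U _ v w =>
    (toRw s D U).co (v (Sum.inr ())) w) ?_
  exact ea_co _ (Sum.inl (Sum.inr ())) (Sum.inr ())

theorem ea_cells : UDef (LU s D) Empty (fun U _ _ => ∀ (κ : s.ι) (v : Fin (s.ar κ) → U),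
    (∀ i, (toRw s D U).pt (v i)) →
      ∃! c, (toRw s D U).Nd κ 0 c ∧ ∀ i : Fin (s.ar κ), (toRw s D U).Co c i (v i)) := by
  refine UDef.allFin fun κ => ?_
  refine UDef.all (β := Fin (s.ar κ)) (P := fun U _ _ v =>
    (∀ i, (toRw s D U).pt (v i)) →
      ∃! c, (toRw s D U).Nd κ 0 c ∧ ∀ i : Fin (s.ar κ), (toRw s D U).Co c i (v i)) ?_
  refine UDef.imp (UDef.allFin fun i => ea_pt _ (Sum.inr i)) ?_
  refine Pool.Agent.Helper72.WT.axd_exUnique (P := fun U _ v c => (toRw s D U).Nd κ 0 c ∧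
    ∀ i : Fin (s.ar κ), (toRw s D U).Co c i (v (Sum.inr i))) ?_
  exact (ea_Nd κ 0 _ (Sum.inr ())).and (UDef.allFin fun i =>
    ea_Co i _ (Sum.inr ()) (Sum.inl (Sum.inr i)))

end Axioms

theorem ax_sentence (s : Kn) (D : ℕ) : ∃ σ : (LU s D).Sentence,
    ∀ (U : Type) [(LU s D).Structure U], σ.Realize U ↔ (toRw s D U).Ax := by
  have h : UDef (LU s D) Empty (fun U _ _ => (toRw s D U).Ax) := by
    refine ((ea_kind s D).and <| (ea_two s D).and <| (ea_nx_nd s D).and <|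
      (ea_nx_ex s D).and <| (ea_nx_inj s D).and <| (ea_co_nd s D).and <|
      (ea_co_ex s D).and (ea_cells s D)).congr fun M _ v => ?_
    constructor
    · rintro ⟨h1, h2, h3, h4, h5, h6, h7, h8⟩
      exact ⟨h1, h2, h3, h4, h5, h6, h7, h8⟩
    · intro h
      exact ⟨h.kind, h.two, h.nx_nd, h.nx_ex, h.nx_inj, h.co_nd, h.co_ex, h.cells⟩
  obtain ⟨σ, hσ⟩ := h.exists_sentence
  exact ⟨σ, fun U _ => hσ U⟩

theorem udef_Rl (s : Kn) (D : ℕ) (κ : s.ι) :
    UDef (LU s D) (Fin (s.ar κ)) (fun U _ v => (toRw s D U).Rl κ v) := by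
  refine UDef.exu (P := fun U _ v c => (toRw s D U).Nd κ 0 c ∧ (toRw s D U).mar c ∧
    ∀ i : Fin (s.ar κ), (toRw s D U).Co c i (v i)) ?_
  exact (ea_Nd κ 0 _ (Sum.inr ())).and ((ea_mar _ (Sum.inr ())).and (UDef.allFin fun i =>
    ea_Co i _ (Sum.inr ()) (Sum.inl i)))

end Pool.Agent.Helper6.ED
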