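import Mathlib
import Pool.Agent.Helper6.ED.EncDefs

set_option autoImplicit false

/-!
# ED-10: every structure has an encoding

`U = M ⊕ (Σ κ, (Fin (ar κ) → M) × Fin (D * (ar κ + 1)))`; `pt` = the elements `inl x`; `nd (κ, j)` = the elements
`inr (κ, (v, j))`; `nx (inr (κ, (v, j))) (inr (κ, (v, j + 1)))`; `co (inr (κ, (v, j))) (inl (v i))` if `j = D * (i + 1)`;
`mar (inr (κ, (v, 0)))` iff `P κ v`. `At j (κ, (v, 0)) x` iff `x = (κ, (v, j))` and `j < D * (ar κ + 1)`.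
-/

namespace Pool.Agent.Helper6.ED

namespace EncExist

/-- The points of the encoding. -/
abbrev Pts (s : Kn) (D : ℕ) (M : Type) : Type :=
  M ⊕ (Σ κ : s.ι, (Fin (s.ar κ) → M) × Fin (D * (s.ar κ + 1)))

variable {s : Kn} {D : ℕ} {M : Type}

/-- The node number `j` of the path of the tuple `v` of kind `κ`. -/
def nod (κ : s.ι) (v : Fin (s.ar κ) → M) (j : ℕ) (h : j < D * (s.ar κ + 1)) : Pts s D M :=
  Sum.inr ⟨κ, v, ⟨j, h⟩⟩

lemma nod_kind {κ κ' : s.ι} {v : Fin (s.ar κ) → M} {v' : Fin (s.ar κ') → M} {j j' : ℕ}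
    {h : j < D * (s.ar κ + 1)} {h' : j' < D * (s.ar κ' + 1)}
    (e : nod κ v j h = nod κ' v' j' h') : κ = κ' := by
  have e1 := Sum.inr.inj e
  exact congrArg Sigma.fst e1

lemma nod_num {κ κ' : s.ι} {v : Fin (s.ar κ) → M} {v' : Fin (s.ar κ') → M} {j j' : ℕ}
    {h : j < D * (s.ar κ + 1)} {h' : j' < D * (s.ar κ' + 1)}
    (e : nod κ v j h = nod κ' v' j' h') : j = j' := by
  have e1 := Sum.inr.inj e
  have e2 := congrArg (fun z : (Σ κ : s.ι, (Fin (s.ar κ) → M) × Fin (D * (s.ar κ + 1))) =>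
    (z.2.2 : ℕ)) e1
  exact e2

lemma nod_inj {κ : s.ι} {v v' : Fin (s.ar κ) → M} {j j' : ℕ}
    {h : j < D * (s.ar κ + 1)} {h' : j' < D * (s.ar κ + 1)}
    (e : nod κ v j h = nod κ v' j' h') : v = v' := by
  have e1 := Sum.inr.inj e
  have e2 := eq_of_heq (Sigma.mk.inj e1).2
  exact (Prod.mk.inj e2).1

/-- The relations of the encoding. -/
def enc (s : Kn) (D : ℕ) (M : Type) (P : ∀ κ : s.ι, (Fin (s.ar κ) → M) → Prop) :
    Rw s D (Pts s D M) where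
  pt := fun x => ∃ m : M, x = Sum.inl m
  nd := fun q x => ∃ v : Fin (s.ar q.1) → M, x = nod q.1 v q.2.1 q.2.2
  mar := fun x => ∃ (κ : s.ι) (v : Fin (s.ar κ) → M) (h : 0 < D * (s.ar κ + 1)),
    x = nod κ v 0 h ∧ P κ v
  nx := fun x y => ∃ (κ : s.ι) (v : Fin (s.ar κ) → M) (j : ℕ) (h : j < D * (s.ar κ + 1))
    (h' : j + 1 < D * (s.ar κ + 1)), x = nod κ v j h ∧ y = nod κ v (j + 1) h'
  co := fun x w => ∃ (κ : s.ι) (v : Fin (s.ar κ) → M) (i : Fin (s.ar κ))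
    (h : D * (i.1 + 1) < D * (s.ar κ + 1)), x = nod κ v (D * (i.1 + 1)) h ∧ w = Sum.inl (v i)

variable {P : ∀ κ : s.ι, (Fin (s.ar κ) → M) → Prop}

lemma lt_len (hD : 0 < D) {κ : s.ι} (i : Fin (s.ar κ)) : D * (i.1 + 1) < D * (s.ar κ + 1) :=
  Nat.mul_lt_mul_of_pos_left (by have := i.2; omega) hD

lemma Nd_iff {κ : s.ι} {j : ℕ} {x : Pts s D M} : (enc s D M P).Nd κ j x ↔
    ∃ (v : Fin (s.ar κ) → M) (h : j < D * (s.ar κ + 1)), x = nod κ v j h := by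
  constructor
  · rintro ⟨h, v, hv⟩
    exact ⟨v, h, hv⟩
  · rintro ⟨v, h, hv⟩
    exact ⟨h, v, hv⟩

lemma nx_iff {κ : s.ι} {v : Fin (s.ar κ) → M} {j : ℕ} {h : j < D * (s.ar κ + 1)}
    {y : Pts s D M} : (enc s D M P).nx (nod κ v j h) y ↔
      ∃ h' : j + 1 < D * (s.ar κ + 1), y = nod κ v (j + 1) h' := by
  constructor
  · rintro ⟨κ', v', j', h1, h2, e1, e2⟩
    obtain rfl := nod_kind e1
    obtain rfl := nod_num e1
    obtain rfl := nod_inj e1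
    exact ⟨h2, e2⟩
  · rintro ⟨h', e⟩
    exact ⟨κ, v, j, h, h', rfl, e⟩

lemma At_iff {κ : s.ι} {v : Fin (s.ar κ) → M} {h0 : 0 < D * (s.ar κ + 1)} (j : ℕ)
    {x : Pts s D M} : (enc s D M P).At j (nod κ v 0 h0) x ↔
      ∃ h' : j < D * (s.ar κ + 1), x = nod κ v j h' := by
  induction j generalizing x with
  | zero =>
    constructor
    · intro e
      exact ⟨h0, e.symm⟩
    · rintro ⟨h', e⟩
      exact e.symm
  | succ j ih =>
    constructor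
    · rintro ⟨y, h1, h2⟩
      obtain ⟨h', rfl⟩ := ih.mp h1
      exact nx_iff.mp h2
    · rintro ⟨h', e⟩
      have hj : j < D * (s.ar κ + 1) := Nat.lt_of_succ_lt h'
      exact ⟨nod κ v j hj, ih.mpr ⟨hj, rfl⟩, nx_iff.mpr ⟨h', e⟩⟩

lemma co_iff (hD : 0 < D) {κ : s.ι} {v : Fin (s.ar κ) → M} {i : Fin (s.ar κ)}
    {h : D * (i.1 + 1) < D * (s.ar κ + 1)} {w : Pts s D M} :
    (enc s D M P).co (nod κ v (D * (i.1 + 1)) h) w ↔ w = Sum.inl (v i) := by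
  constructor
  · rintro ⟨κ', v', i', h1, e1, e2⟩
    obtain rfl := nod_kind e1
    obtain rfl := nod_inj e1
    have h3 := Nat.eq_of_mul_eq_mul_left hD (nod_num e1)
    have h4 : i = i' := Fin.ext (by omega)
    rw [e2, h4]
  · intro e
    exact ⟨κ, v, i, h, rfl, e⟩

lemma Co_iff (hD : 0 < D) {κ : s.ι} {v : Fin (s.ar κ) → M} {h0 : 0 < D * (s.ar κ + 1)}
    {i : Fin (s.ar κ)} {w : Pts s D M} :
    (enc s D M P).Co (nod κ v 0 h0) i w ↔ w = Sum.inl (v i) := by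
  constructor
  · rintro ⟨x, h1, h2⟩
    obtain ⟨h', rfl⟩ := (At_iff _).mp h1
    exact (co_iff hD).mp h2
  · intro e
    exact ⟨nod κ v (D * (i.1 + 1)) (lt_len hD i), (At_iff _).mpr ⟨lt_len hD i, rfl⟩,
      (co_iff hD).mpr e⟩

lemma enc_ax (hD : 0 < D) (h2 : ∃ x y : M, x ≠ y) : (enc s D M P).Ax where
  kind := by
    rintro (m | ⟨κ, v, ⟨j, h⟩⟩)
    · refine ⟨none, ⟨m, rfl⟩, ?_⟩
      rintro (_ | q) hq
      · rfl
      · obtain ⟨v, hv⟩ := hq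
        cases hv
    · refine ⟨some ⟨κ, ⟨j, h⟩⟩, ⟨v, rfl⟩, ?_⟩
      rintro (_ | ⟨κ', ⟨j', h'⟩⟩) hq
      · obtain ⟨m, hm⟩ := hq
        cases hm
      · obtain ⟨v', hv⟩ := hq
        have e : nod κ v j h = nod κ' v' j' h' := hv
        obtain rfl := nod_kind e
        obtain rfl := nod_num e
        rfl
  two := by
    obtain ⟨x, y, h⟩ := h2
    exact ⟨Sum.inl x, Sum.inl y, ⟨x, rfl⟩, ⟨y, rfl⟩, fun e => h (Sum.inl.inj e)⟩
  nx_nd := by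
    rintro x y ⟨κ, v, j, h, h', rfl, rfl⟩
    exact ⟨κ, j, Nd_iff.mpr ⟨v, h, rfl⟩, Nd_iff.mpr ⟨v, h', rfl⟩⟩
  nx_ex := by
    intro κ j x hx hj
    obtain ⟨v, h, rfl⟩ := Nd_iff.mp hx
    refine ⟨nod κ v (j + 1) hj, nx_iff.mpr ⟨hj, rfl⟩, ?_⟩
    intro y hy
    obtain ⟨h', e⟩ := nx_iff.mp hy
    exact e
  nx_inj := by
    intro κ j y hy
    obtain ⟨v, h, rfl⟩ := Nd_iff.mp hy
    have hj : j < D * (s.ar κ + 1) := Nat.lt_of_succ_lt h
    refine ⟨nod κ v j hj, nx_iff.mpr ⟨h, rfl⟩, ?_⟩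
    rintro x ⟨κ', v', j', h1, h3, rfl, e2⟩
    obtain rfl := nod_kind e2
    obtain rfl := nod_inj e2
    have h4 : j' = j := by have := nod_num e2; omega
    subst h4
    rfl
  co_nd := by
    rintro x w ⟨κ, v, i, h, rfl, rfl⟩
    exact ⟨⟨κ, i, Nd_iff.mpr ⟨v, h, rfl⟩⟩, ⟨v i, rfl⟩⟩
  co_ex := by
    intro κ i x hx
    obtain ⟨v, h, rfl⟩ := Nd_iff.mp hx
    exact ⟨Sum.inl (v i), (co_iff hD).mpr rfl, fun w hw => (co_iff hD).mp hw⟩
  cells := by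
    intro κ v hv
    choose u hu using hv
    have h0 : 0 < D * (s.ar κ + 1) := Nat.mul_pos hD (Nat.succ_pos _)
    refine ⟨nod κ u 0 h0, ⟨Nd_iff.mpr ⟨u, h0, rfl⟩, fun i => (Co_iff hD).mpr (hu i)⟩, ?_⟩
    rintro c ⟨hc, hi⟩
    obtain ⟨v', h', rfl⟩ := Nd_iff.mp hc
    have e : v' = u := by
      funext i
      have h1 := (Co_iff hD).mp (hi i)
      rw [hu i] at h1
      exact (Sum.inl.inj h1).symm
    rw [e]

lemma Rl_iff (hD : 0 < D) {κ : s.ι} (v : Fin (s.ar κ) → M) :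
    (enc s D M P).Rl κ (fun i => (Sum.inl (v i) : Pts s D M)) ↔ P κ v := by
  have h0 : 0 < D * (s.ar κ + 1) := Nat.mul_pos hD (Nat.succ_pos _)
  constructor
  · rintro ⟨c, hc, hm, hi⟩
    obtain ⟨v', h', rfl⟩ := Nd_iff.mp hc
    have e : v' = v := by
      funext i
      have h1 := (Co_iff hD).mp (hi i)
      exact (Sum.inl.inj h1).symm
    obtain ⟨κ', u, h1, e1, hP⟩ := hm
    obtain rfl := nod_kind e1
    obtain rfl := nod_inj e1
    rw [← e]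
    exact hP
  · intro hP
    exact ⟨nod κ v 0 h0, Nd_iff.mpr ⟨v, h0, rfl⟩, ⟨κ, v, h0, rfl, hP⟩,
      fun i => (Co_iff hD).mpr rfl⟩

end EncExist

open EncExist in
theorem exists_encoded (s : Kn) {D : ℕ} (hD : 0 < D) (M : Type) [Finite M]
    (hM : 2 ≤ Nat.card M) (P : ∀ κ : s.ι, (Fin (s.ar κ) → M) → Prop) :
    ∃ (U : Type) (A : Rw s D U) (_ : Finite U) (_ : A.Ax) (e : M ≃ {x : U // A.pt x}),
      ∀ (κ : s.ι) (v : Fin (s.ar κ) → M), P κ v ↔ A.Rl κ (fun i => (e (v i)).1) := by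
  have h2 : ∃ x y : M, x ≠ y := by
    have h3 : 1 < Nat.card M := hM
    obtain ⟨x, y, h⟩ := (Finite.one_lt_card_iff_nontrivial.mp h3).exists_pair_ne
    exact ⟨x, y, h⟩
  refine ⟨Pts s D M, enc s D M P, inferInstance, enc_ax hD h2,
    Equiv.ofBijective (fun m => ⟨Sum.inl m, m, rfl⟩) ⟨?_, ?_⟩, ?_⟩
  · intro a b hab
    exact Sum.inl.inj (congrArg Subtype.val hab)
  · rintro ⟨x, m, rfl⟩
    exact ⟨m, rfl⟩
  · intro κ v
    exact (Rl_iff hD v).symm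

end Pool.Agent.Helper6.ED
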