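import Mathlib
import Pool.Agent.Helper6.ED.EncDefs

set_option autoImplicit false

/-!
# ED-12: the numbers `NN s D m`

`NN_lt`: every term is monotone in `m`, the first is strictly monotone. `NN_le`: for `m ≥ 2` every constant `c` is at most
`2 ^ c ≤ m ^ c`; a finite sum of terms `c * m ^ a` is at most `m ^ (r + 1)` for a suitable `r` (compare `PB` in
`Helper72/WT/Numb.lean`).
-/

namespace Pool.Agent.Helper6.ED

theorem NN_lt (s : Kn) (D : ℕ) {m m' : ℕ} (h : m < m') : NN s D m < NN s D m' := by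
  have h1 : ∑ κ : s.ι, D * (s.ar κ + 1) * m ^ s.ar κ ≤ ∑ κ : s.ι, D * (s.ar κ + 1) * m' ^ s.ar κ :=
    Finset.sum_le_sum fun κ _ => Nat.mul_le_mul_left _ (Nat.pow_le_pow_left h.le _)
  unfold NN
  omega

theorem NN_le (s : Kn) (D : ℕ) : ∃ r, ∀ m, 2 ≤ m → NN s D m ≤ m ^ (r + 1) := by
  refine ⟨(∑ κ : s.ι, D * (s.ar κ + 1)) + ∑ κ : s.ι, s.ar κ, fun m hm => ?_⟩
  have hsum : ∑ κ : s.ι, D * (s.ar κ + 1) * m ^ s.ar κ ≤
      (∑ κ : s.ι, D * (s.ar κ + 1)) * m ^ (∑ κ : s.ι, s.ar κ) := by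
    rw [Finset.sum_mul]
    refine Finset.sum_le_sum fun κ _ => Nat.mul_le_mul_left _ (Nat.pow_le_pow_right (by omega) ?_)
    exact Finset.single_le_sum (f := fun κ : s.ι => s.ar κ) (fun i _ => Nat.zero_le _) (Finset.mem_univ κ)
  unfold NN
  set C := ∑ κ : s.ι, D * (s.ar κ + 1) with hC
  set A := ∑ κ : s.ι, s.ar κ with hA
  have h1 : C + 1 ≤ m ^ C := by
    have h2 : C < 2 ^ C := Nat.lt_two_pow_self
    have h3 : 2 ^ C ≤ m ^ C := Nat.pow_le_pow_left hm _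
    omega
  have h4 : m ≤ m ^ (A + 1) := by
    calc m = m ^ 1 := (pow_one m).symm
      _ ≤ m ^ (A + 1) := Nat.pow_le_pow_right (by omega) (by omega)
  have h5 : m ^ A ≤ m ^ (A + 1) := Nat.pow_le_pow_right (by omega) (by omega)
  calc m + ∑ κ : s.ι, D * (s.ar κ + 1) * m ^ s.ar κ ≤ m ^ (A + 1) + C * m ^ (A + 1) :=
        Nat.add_le_add h4 (hsum.trans (Nat.mul_le_mul_left _ h5))
    _ = (C + 1) * m ^ (A + 1) := by ring
    _ ≤ m ^ C * m ^ (A + 1) := Nat.mul_le_mul_right _ h1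
    _ = m ^ (C + A + 1) := by rw [← pow_add]; congr 1

/-- If there is a kind of arity at least two then the gaps of `NN` grow. -/
theorem NN_gap (s : Kn) {D : ℕ} (hD : 0 < D) (κ₀ : s.ι) (hκ : 2 ≤ s.ar κ₀) {m m' : ℕ}
    (h : m < m') : NN s D m + m < NN s D m' := by
  classical
  have hpow : m ^ s.ar κ₀ + m ≤ m' ^ s.ar κ₀ := by
    obtain ⟨a, ha⟩ : ∃ a, s.ar κ₀ = a + 1 + 1 := ⟨s.ar κ₀ - 2, by omega⟩
    rw [ha]
    rcases Nat.eq_zero_or_pos m with h0 | h0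
    · subst h0
      simp
    have h1 : (m + 1) ^ (a + 1 + 1) ≤ m' ^ (a + 1 + 1) := Nat.pow_le_pow_left h _
    have h2 : m ^ (a + 1) ≤ (m + 1) ^ (a + 1) := Nat.pow_le_pow_left (by omega) _
    have h3 : m ≤ m ^ (a + 1) := by
      calc m = m ^ 1 := (pow_one m).symm
        _ ≤ m ^ (a + 1) := Nat.pow_le_pow_right h0 (by omega)
    have h4 : (m + 1) ^ (a + 1 + 1) = (m + 1) ^ (a + 1) * (m + 1) := pow_succ _ _
    have h5 : m ^ (a + 1 + 1) = m ^ (a + 1) * m := pow_succ _ _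
    have h6 : m ^ (a + 1) * (m + 1) ≤ (m + 1) ^ (a + 1) * (m + 1) := Nat.mul_le_mul_right _ h2
    have h7 : m ^ (a + 1) * (m + 1) = m ^ (a + 1) * m + m ^ (a + 1) := by ring
    omega
  have hsum : ∑ κ : s.ι, D * (s.ar κ + 1) * m ^ s.ar κ + m ≤
      ∑ κ : s.ι, D * (s.ar κ + 1) * m' ^ s.ar κ := by
    rw [← Finset.add_sum_erase _ _ (Finset.mem_univ κ₀), ← Finset.add_sum_erase _ _ (Finset.mem_univ κ₀)]
    have h1 : ∑ κ ∈ Finset.univ.erase κ₀, D * (s.ar κ + 1) * m ^ s.ar κ ≤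
        ∑ κ ∈ Finset.univ.erase κ₀, D * (s.ar κ + 1) * m' ^ s.ar κ :=
      Finset.sum_le_sum fun κ _ => Nat.mul_le_mul_left _ (Nat.pow_le_pow_left h.le _)
    have h2 : D * (s.ar κ₀ + 1) * m ^ s.ar κ₀ + m ≤ D * (s.ar κ₀ + 1) * m' ^ s.ar κ₀ := by
      have h3 : D * (s.ar κ₀ + 1) * (m ^ s.ar κ₀ + m) ≤ D * (s.ar κ₀ + 1) * m' ^ s.ar κ₀ :=
        Nat.mul_le_mul_left _ hpow
      have h4 : m ≤ D * (s.ar κ₀ + 1) * m := by
        have : 0 < D * (s.ar κ₀ + 1) := Nat.mul_pos hD (Nat.succ_pos _)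
        exact Nat.le_mul_of_pos_left _ this
      rw [Nat.mul_add] at h3
      omega
    omega
  unfold NN
  omega

end Pool.Agent.Helper6.ED
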