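import Mathlib
import Pool.Agent.Helper72.WT.Barrier
import Pool.Agent.Helper6.ED.EncAx
import Pool.Agent.Helper6.ED.EncExist
import Pool.Agent.Helper6.ED.EncCount
import Pool.Agent.Helper6.ED.Num

set_option autoImplicit false

/-! ED-15: the sentences all of whose finite models are encoded structures represent the full
problem. -/

namespace Pool.Agent.Helper6.ED

open FirstOrder FirstOrder.Language Pool.Agent.Helper87.AU Pool.Agent.Helper31.Spectra

/-- there are at least two points -/
lemma two_le {s : Kn} {D : ℕ} {U : Type} [Finite U] {A : Rw s D U} (hA : A.Ax) :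
    2 ≤ Nat.card {x : U // A.pt x} := by
  obtain ⟨x, y, hx, hy, hxy⟩ := hA.two
  have : Nontrivial {x : U // A.pt x} := ⟨⟨x, hx⟩, ⟨y, hy⟩, fun h => hxy (congrArg Subtype.val h)⟩
  exact Finite.one_lt_card

/-- The `L`-structure on the points of an encoded structure. -/
@[instance_reducible]
noncomputable def pstr {L : FirstOrder.Language.{0, 0}} (hL : ∀ n, IsEmpty (L.Functions n))
    (hf : Finite (Σ n, L.Relations n)) (C : ℕ) {D : ℕ} {U : Type} (A : Rw (knOf L hf C) D U) :
    L.Structure {x : U // A.pt x} :=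
  Pool.Agent.Helper72.WT.istr hL fun n R v =>
    A.Rl (some ⟨n, R⟩ : Option (Σ n, L.Relations n)) fun i => (v i).1

theorem barrier_ax (C D : ℕ) (hD0 : 0 < D)
    (hyp : ∀ (s : Kn) (κ₀ : s.ι), C < s.ar κ₀ → ∀ φ : (LU s D).Sentence,
      (∀ (M : Type) [(LU s D).Structure M] [Finite M], φ.Realize M → (toRw s D M).Ax) →
      IsSpectrum {n | 0 < n ∧ n ∉ Spec (LU s D) φ})
    (L : FirstOrder.Language.{0, 0}) (φ : L.Sentence) (hL : FinVoc L) :
    IsSpectrum {n | 0 < n ∧ n ∉ Spec L φ} := by
  -- relational language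
  obtain ⟨L₁, ψ, hL₁, hf₁, hspec⟩ :=
    Pool.Agent.Helper72.WT.exists_relational (S := Spec L φ) ⟨L, φ, hL, rfl⟩
  rw [← hspec]
  -- the language of the encoding
  set s := knOf L₁ hf₁ C with hs
  obtain ⟨σ, hσ⟩ := ax_sentence s D
  obtain ⟨ψ', hψ'⟩ := Pool.Agent.Helper72.WT.interp hL₁ (L' := LU s D)
    (fun U _ x => (toRw s D U).pt x)
    ((UDef.rel (L := LU s D) (α := Unit) UR.pt ![Term.var ()]).congr (by
      intro M _ v
      have e : (fun i => ((![Term.var ()] : Fin 1 → (LU s D).Term Unit) i).realize v) =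
          ![v ()] := by
        funext i
        have hi : i = 0 := Subsingleton.elim _ _
        subst hi
        rfl
      show Structure.RelMap _ (fun i => ((![Term.var ()] : Fin 1 → (LU s D).Term Unit) i).realize v)
        ↔ _
      rw [e]
      exact Iff.rfl))
    (fun n R U _ v => (toRw s D U).Rl (some ⟨n, R⟩ : Option (Σ n, L₁.Relations n)) v)
    (fun n R => udef_Rl s D (some ⟨n, R⟩ : Option (Σ n, L₁.Relations n))) ψ
  have hcompl := hyp s (none : Option (Σ n, L₁.Relations n)) (Nat.lt_succ_self C) (σ ⊓ ψ')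
    (fun U _ _ hU => (hσ U).1 (Formula.realize_inf.1 hU).1)
  obtain ⟨LX, χ, hLX, hfX, hχ⟩ := Pool.Agent.Helper72.WT.exists_relational hcompl
  obtain ⟨r, hr⟩ := NN_le s D
  have hsp := Pool.Agent.Helper72.WT.spec_comp (isEmpty_LU s D) (finite_LU s D) hLX hfX σ UR.pt χ
    (NN s D) 2 r (by omega) (by
      intro U _ _ hU
      have hA : (toRw s D U).Ax := (hσ U).1 hU
      exact ⟨two_le hA, card_U _ hA hD0⟩) (by
      intro m hm
      obtain ⟨U, A, hfU, hA, e, -⟩ := exists_encoded s hD0 (Fin m) (by simpa using hm)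
        (fun _ _ => False)
      refine ⟨U, ofRw A, hfU, (@hσ U (ofRw A)).2 hA, ?_⟩
      have := Nat.card_congr e
      rw [Nat.card_eq_fintype_card, Fintype.card_fin] at this
      exact this.symm) (by
      intro m hm
      exact hr m hm)
  -- the spectrum of the encoding
  have hmono : ∀ {m m' : ℕ}, NN s D m = NN s D m' → m = m' := by
    intro m m' h
    rcases Nat.lt_trichotomy m m' with h1 | h1 | h1
    · have := NN_lt s D h1
      omega
    · exact h1
    · have := NN_lt s D h1
      omega
  have key : ∀ m, 2 ≤ m → (NN s D m ∈ Spec LX χ ↔ m ∉ Spec L₁ ψ) := by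
    intro m hm
    rw [hχ]
    have hpos : 0 < NN s D m := by
      unfold NN
      omega
    have hiff : NN s D m ∈ Spec (LU s D) (σ ⊓ ψ') ↔ m ∈ Spec L₁ ψ := by
      constructor
      · rintro ⟨_, U, sU, hcU, hU⟩
        have hfU : Finite U := Nat.finite_of_card_ne_zero (by omega)
        obtain ⟨hU1, hU2⟩ := Formula.realize_inf.1 hU
        have hA : (toRw s D U).Ax := (hσ U).1 hU1
        have h2 := card_U _ hA hD0
        have hcard : Nat.card {x : U // (toRw s D U).pt x} = m := by
          apply hmono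
          rw [← h2, hcU]
        exact ⟨by omega, _, pstr hL₁ hf₁ C (toRw s D U), hcard, (hψ' U).1 hU2⟩
      · rintro ⟨hm0, M, sM, hcM, hM⟩
        have hfM : Finite M := Nat.finite_of_card_ne_zero (by omega)
        obtain ⟨U, A, hfU, hA, e, he⟩ := exists_encoded s hD0 M (by omega)
          (fun κ v => ∃ (R : Σ n, L₁.Relations n) (hR : κ = (some R : Option _)),
            Structure.RelMap R.2 (fun i => v (Fin.cast (by rw [hR]; rfl) i)))
        let sU : (LU s D).Structure U := ofRw A
        have hU1 : σ.Realize U := (hσ U).2 hA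
        have h2 := card_U A hA hD0
        have hcard : Nat.card {x : U // A.pt x} = m := by
          rw [← hcM]
          exact (Nat.card_congr e).symm
        rw [hcard] at h2
        refine ⟨hpos, U, sU, h2, Formula.realize_inf.2 ⟨hU1, ?_⟩⟩
        refine (hψ' U).2 ?_
        let _ : L₁.Structure {x : U // A.pt x} := pstr hL₁ hf₁ C A
        have hlang : M ≃[L₁] {x : U // A.pt x} :=
          { e with
            map_fun' := fun {n} f _ => ((hL₁ n).false f).elim
            map_rel' := fun {n} R v => by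
              have h5 := he (some ⟨n, R⟩ : Option (Σ n, L₁.Relations n)) v
              refine h5.symm.trans ?_
              constructor
              · rintro ⟨⟨n', R'⟩, hR, hr⟩
                obtain ⟨rfl, hR⟩ := Sigma.mk.inj (Option.some.inj hR)
                obtain rfl := eq_of_heq hR
                exact hr
              · intro hr
                exact ⟨⟨n, R⟩, rfl, hr⟩ }
        exact (StrongHomClass.realize_sentence hlang ψ).1 hM
    constructor
    · rintro ⟨-, h1⟩ h2
      exact h1 (hiff.2 h2)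
    · intro h1
      exact ⟨hpos, fun h2 => h1 (hiff.1 h2)⟩
  -- the finitely many small numbers
  have hsmall : IsSpectrum {n | 0 < n ∧ n < 2 ∧ n ∉ Spec L₁ ψ} :=
    Pool.Agent.Helper72.WT.isSpectrum_finite (fun n hn => hn.1) 2 (fun n hn => hn.2.1.le)
  have hunion := hsp.union hsmall
  have heq : {n | 0 < n ∧ n ∉ Spec L₁ ψ} = {m | 2 ≤ m ∧ NN s D m ∈ Spec LX χ} ∪
      {n | 0 < n ∧ n < 2 ∧ n ∉ Spec L₁ ψ} := by
    ext n
    constructor
    · rintro ⟨h1, h2⟩
      rcases Nat.lt_or_ge n 2 with h3 | h3
      · exact Or.inr ⟨h1, h3, h2⟩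
      · exact Or.inl ⟨h3, (key n h3).2 h2⟩
    · rintro (⟨h1, h2⟩ | ⟨h1, -, h2⟩)
      · exact ⟨by omega, (key n h1).1 h2⟩
      · exact ⟨h1, h2⟩
  rw [heq]
  exact hunion

end Pool.Agent.Helper6.ED
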