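import Mathlib
import Pool.Agent.Helper32.PumpDefs

set_option autoImplicit false

/-! Project ED: the average degree of a finite relational structure. -/

namespace Pool.Agent.Helper6.ED

open FirstOrder FirstOrder.Language

/-- Two different elements of the relational structure `M` are adjacent if they occur together in a
tuple of a relation. -/
def Adj (L : FirstOrder.Language.{0, 0}) (M : Type) [L.Structure M] (x y : M) : Prop :=
  x ≠ y ∧ ∃ (n : ℕ) (R : L.Relations n) (v : Fin n → M), Structure.RelMap R v ∧
    x ∈ Set.range v ∧ y ∈ Set.range v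

/-- The average degree of `M` is at most `2 + 1 / C`. -/
def AvgDegLE (L : FirstOrder.Language.{0, 0}) (M : Type) [L.Structure M] (C : ℕ) : Prop :=
  C * Nat.card {p : M × M // Adj L M p.1 p.2} ≤ (2 * C + 1) * Nat.card M

/-- The degree of an element: the number of the elements adjacent to it. -/
noncomputable def deg (L : FirstOrder.Language.{0, 0}) (M : Type) [L.Structure M] (x : M) : ℕ :=
  Nat.card {y : M // Adj L M x y}

/-- `Y` is a sparse part of `M`: at most `|Y| / C` elements of `Y` are adjacent to elements outside
`Y`, and the average degree inside `Y` is at most `2 + 1 / C`. -/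
def SparsePart (L : FirstOrder.Language.{0, 0}) (M : Type) [L.Structure M] (C : ℕ)
    (Y : Set M) : Prop :=
  C * Nat.card {x : M // x ∈ Y ∧ ∃ y, y ∉ Y ∧ Adj L M x y} ≤ Nat.card Y ∧
    C * Nat.card {p : M × M // p.1 ∈ Y ∧ p.2 ∈ Y ∧ Adj L M p.1 p.2} ≤ (2 * C + 1) * Nat.card Y

/-- At most two vertices of the vertex set `U` have neighbours outside `U`. -/
def SmallBd {V : Type} (G : SimpleGraph V) (U : Set V) : Prop :=
  ∃ a b : V, ∀ u ∈ U, ∀ w, w ∉ U → G.Adj u w → u = a ∨ u = b

end Pool.Agent.Helper6.ED
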