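import Mathlib
import Pool.Agent.Helper6.ED.Defs

set_option autoImplicit false

/-!
# ED-3: graphs with many components

The union of the first `i` of the components (`i = 0, …, N`, for an enumeration of `N` of the components which do not meet
`Z`) has no neighbours outside. (Proof for `Z = ∅` by helper97.)
-/

namespace Pool.Agent.Helper6.ED

theorem chain_of_components {V : Type} [Finite V] (G : SimpleGraph V) (N : ℕ) (Z : Set V)
    (h : N + Nat.card Z ≤ Nat.card G.ConnectedComponent) :
    ∃ U : Fin (N + 1) → Set V, StrictMono U ∧ ∀ i, ∀ u ∈ U i, u ∉ Z ∧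
      ∀ w, G.Adj u w → w ∈ U i := by
  classical
  have : Finite G.ConnectedComponent := Quot.finite _
  have hcard : N ≤ Nat.card {c : G.ConnectedComponent // ∀ z ∈ Z, G.connectedComponentMk z ≠ c} := by
    set T : Set G.ConnectedComponent := (fun z => G.connectedComponentMk z) '' Z with hT
    have h1 : Nat.card T ≤ Nat.card Z := by
      rw [hT]
      exact Set.ncard_image_le (Set.toFinite Z)
    have h2 : Nat.card T + Nat.card (Tᶜ : Set G.ConnectedComponent) =
        Nat.card G.ConnectedComponent := by
      have := Set.ncard_add_ncard_compl T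
      rwa [Set.ncard, Set.ncard] at this
    have h3 : Nat.card {c : G.ConnectedComponent // ∀ z ∈ Z, G.connectedComponentMk z ≠ c} =
        Nat.card (Tᶜ : Set G.ConnectedComponent) := by
      refine Nat.card_congr (Equiv.subtypeEquivRight fun c => ?_)
      simp [hT]
    rw [h3]
    omega
  obtain ⟨e, he⟩ : ∃ e : Fin N → {c : G.ConnectedComponent // ∀ z ∈ Z,
      G.connectedComponentMk z ≠ c}, Function.Injective e := by
    have := Fintype.ofFinite {c : G.ConnectedComponent // ∀ z ∈ Z, G.connectedComponentMk z ≠ c}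
    rw [Nat.card_eq_fintype_card] at hcard
    obtain ⟨f⟩ := Function.Embedding.nonempty_of_card_le
      (α := Fin N) (β := {c : G.ConnectedComponent // ∀ z ∈ Z, G.connectedComponentMk z ≠ c})
      (by simpa using hcard)
    exact ⟨f, f.injective⟩
  refine ⟨fun i => {v | ∃ j : Fin N, (j : ℕ) < (i : ℕ) ∧ G.connectedComponentMk v = (e j).1},
    ?_, ?_⟩
  · intro i k hik
    have hik' : (i : ℕ) < (k : ℕ) := hik
    have hiN : (i : ℕ) < N := by
      have := k.isLt
      omega
    refine ⟨?_, ?_⟩
    · rintro v ⟨j, hj, hv⟩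
      exact ⟨j, by omega, hv⟩
    · intro hsub
      obtain ⟨v, hv⟩ := (e ⟨i, hiN⟩).1.exists_rep
      have hv' : G.connectedComponentMk v = (e ⟨i, hiN⟩).1 := hv
      have hmem : v ∈ {v | ∃ j : Fin N, (j : ℕ) < (k : ℕ) ∧
          G.connectedComponentMk v = (e j).1} := ⟨⟨i, hiN⟩, hik', hv'⟩
      obtain ⟨j, hj, hvj⟩ := hsub hmem
      have : e j = e ⟨i, hiN⟩ := Subtype.ext (hvj.symm.trans hv')
      have hji := he this
      rw [hji] at hj
      exact lt_irrefl _ hj
  · rintro i u ⟨j, hj, hu⟩
    refine ⟨fun hz => (e j).2 u hz hu, fun w hadj => ⟨j, hj, ?_⟩⟩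
    rw [← hu]
    exact (SimpleGraph.ConnectedComponent.eq.mpr hadj.reachable).symm

end Pool.Agent.Helper6.ED
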