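import Mathlib
import Pool.Agent.Helper6.ED.Defs

set_option autoImplicit false

/-!
# ED-6: sets with at most two boundary points have cut index at most three

`gaifman L M`: the graph of the relation `Adj`. For `SmallBd (gaifman L M) U` with `a, b` label `a` by `0`, `b` by `1` (if
`b ≠ a`) and everything else by `2`. Let `u, u' ∈ U` have equal labels. If `u ≠ u'` both are different from `a` and `b`, so
they are not adjacent to elements outside `U`. As `x j ∉ U`, `x j` and `u` would be adjacent if
`RelMap R (Function.update x i u)` (`i ≠ j`, `u ≠ x j`): both sides are false.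
-/

namespace Pool.Agent.Helper6.ED

open FirstOrder FirstOrder.Language Pool.Agent.Helper32.Pump

/-- The graph of the relation `Adj`. -/
def gaifman (L : FirstOrder.Language.{0, 0}) (M : Type) [L.Structure M] : SimpleGraph M where
  Adj x y := Adj L M x y
  symm := ⟨fun _ _ ⟨h0, n, R, v, h1, h2, h3⟩ => ⟨h0.symm, n, R, v, h1, h3, h2⟩⟩
  loopless := ⟨fun _ h => h.1 rfl⟩

theorem cutIndex_of_smallBd {L : FirstOrder.Language.{0, 0}} {M : Type} [L.Structure M]
    {U : Set M} (h : SmallBd (gaifman L M) U) : CutIndexLE L M 3 U := by
  classical
  obtain ⟨a, b, hab⟩ := h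
  have key : ∀ u ∈ U, u ≠ a → u ≠ b → ∀ (n : ℕ) (R : L.Relations n) (x : Fin n → M)
      (i j : Fin n), i ≠ j → x j ∉ U → ¬ Structure.RelMap R (Function.update x i u) := by
    intro u hu hua hub n R x i j hij hxj hR
    have hne : u ≠ x j := fun h => hxj (h ▸ hu)
    have hadj : (gaifman L M).Adj u (x j) :=
      ⟨hne, n, R, Function.update x i u, hR, ⟨i, by simp⟩,
        ⟨j, Function.update_of_ne hij.symm _ _⟩⟩
    rcases hab u hu (x j) hxj hadj with h | h
    · exact hua h
    · exact hub h
  refine ⟨fun v => if v = a then 0 else if v = b then 1 else 2, ?_⟩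
  intro u hu u' hu' hc n R x i j hij hxj
  by_cases huu : u = u'
  · rw [huu]
  · have h1 : u ≠ a ∧ u ≠ b ∧ u' ≠ a ∧ u' ≠ b := by
      have hc' : (if u = a then (0 : Fin 3) else if u = b then 1 else 2) =
        (if u' = a then (0 : Fin 3) else if u' = b then 1 else 2) := hc
      by_cases h1 : u = a
      · rw [if_pos h1] at hc'
        by_cases h2 : u' = a
        · exact absurd (h1.trans h2.symm) huu
        · rw [if_neg h2] at hc'
          by_cases h3 : u' = b
          · rw [if_pos h3] at hc'
            exact absurd hc' (by decide)
          · rw [if_neg h3] at hc'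
            exact absurd hc' (by decide)
      · rw [if_neg h1] at hc'
        by_cases h2 : u = b
        · rw [if_pos h2] at hc'
          by_cases h3 : u' = a
          · rw [if_pos h3] at hc'
            exact absurd hc' (by decide)
          · rw [if_neg h3] at hc'
            by_cases h4 : u' = b
            · exact absurd (h2.trans h4.symm) huu
            · rw [if_neg h4] at hc'
              exact absurd hc' (by decide)
        · rw [if_neg h2] at hc'
          by_cases h3 : u' = a
          · rw [if_pos h3] at hc'
            exact absurd hc' (by decide)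
          · rw [if_neg h3] at hc'
            by_cases h4 : u' = b
            · rw [if_pos h4] at hc'
              exact absurd hc' (by decide)
            · exact ⟨h1, h2, h3, h4⟩
    exact iff_of_false (key u hu h1.1 h1.2.1 n R x i j hij hxj)
      (key u' hu' h1.2.2.1 h1.2.2.2 n R x i j hij hxj)

end Pool.Agent.Helper6.ED
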