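import Mathlib
import Pool.Agent.Helper6.ED.Defs
import Pool.Agent.Helper6.ED.EncLang
import Pool.Agent.Helper6.ED.EncCount

set_option autoImplicit false

/-!
# ED-11: the degrees of encoded structures

`adj_LU`: the language has no functions, in tuples of the unary relations no two different points occur. So `Adj x y`
implies `nx x y ∨ nx y x ∨ co x y ∨ co y x`.
`avg_U` (`D = 2 * C`): the number of ordered adjacent pairs is at most twice the number of pairs in `nx` plus twice the
number of pairs in `co`; `card_nx`, `card_co`.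
`deg_U`: a point `x` which is not in `pt` has at most one `y` with `nx x y`, at most one `y` with `nx y x`, at most one `w`
with `co x w` and no `w` with `co w x`: degree at most three. So there are at most `m` points of larger degree, and
`m ^ C ≤ card U` by `card_U` if there is a kind of arity at least `C` (`m ≥ 2`).
-/

namespace Pool.Agent.Helper6.ED

open FirstOrder FirstOrder.Language

theorem adj_LU {s : Kn} {D : ℕ} {U : Type} [(LU s D).Structure U] {x y : U}
    (h : Adj (LU s D) U x y) : (toRw s D U).nx x y ∨ (toRw s D U).nx y x ∨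
      (toRw s D U).co x y ∨ (toRw s D U).co y x := by
  obtain ⟨hne, n, R, v, hR, ⟨i, hi⟩, ⟨j, hj⟩⟩ := h
  have key1 : ∀ v : Fin 1 → U, ∀ i j : Fin 1, v i = x → v j = y → False := by
    intro v i j hi hj
    apply hne
    rw [← hi, ← hj, Subsingleton.elim i j]
  have key2 : ∀ v : Fin 2 → U, ∀ i j : Fin 2, v i = x → v j = y →
      (v = ![x, y] ∨ v = ![y, x]) := by
    intro v i j hi hj
    have hij : i ≠ j := by
      rintro rfl
      exact hne (hi.symm.trans hj)
    fin_cases i <;> fin_cases j
    · exact absurd rfl hij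
    · left
      funext k
      fin_cases k
      · exact hi
      · exact hj
    · right
      funext k
      fin_cases k
      · exact hj
      · exact hi
    · exact absurd rfl hij
  cases R with
  | pt => exact (key1 v i j hi hj).elim
  | nd q => exact (key1 v i j hi hj).elim
  | mar => exact (key1 v i j hi hj).elim
  | nx =>
    rcases key2 v i j hi hj with hv | hv
    · left
      rw [hv] at hR
      exact hR
    · right; left
      rw [hv] at hR
      exact hR
  | co =>
    rcases key2 v i j hi hj with hv | hv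
    · right; right; left
      rw [hv] at hR
      exact hR
    · right; right; right
      rw [hv] at hR
      exact hR

theorem avg_U {s : Kn} {C : ℕ} (hC : 0 < C) {U : Type} [(LU s (2 * C)).Structure U] [Finite U]
    (hA : (toRw s (2 * C) U).Ax) : AvgDegLE (LU s (2 * C)) U C := by
  classical
  set A := toRw s (2 * C) U with hAdef
  have h1 := card_nx A hA
  have h2 := card_co A hA (by omega)
  have hle : Nat.card {p : U × U // Adj (LU s (2 * C)) U p.1 p.2} ≤
      Nat.card {p : U × U // A.nx p.1 p.2} + Nat.card {p : U × U // A.nx p.1 p.2} +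
      (Nat.card {p : U × U // A.co p.1 p.2} + Nat.card {p : U × U // A.co p.1 p.2}) := by
    have e1 : Nat.card {p : U × U // Adj (LU s (2 * C)) U p.1 p.2} =
        Set.ncard {p : U × U | Adj (LU s (2 * C)) U p.1 p.2} := rfl
    have e2 : Nat.card {p : U × U // A.nx p.1 p.2} = Set.ncard {p : U × U | A.nx p.1 p.2} := rfl
    have e3 : Nat.card {p : U × U // A.co p.1 p.2} = Set.ncard {p : U × U | A.co p.1 p.2} := rfl
    have e2' : Set.ncard {p : U × U | A.nx p.2 p.1} = Set.ncard {p : U × U | A.nx p.1 p.2} := by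
      have : {p : U × U | A.nx p.2 p.1} = Prod.swap '' {p : U × U | A.nx p.1 p.2} := by
        ext ⟨a, b⟩
        simp only [Set.mem_setOf_eq, Set.mem_image, Prod.exists, Prod.swap_prod_mk, Prod.mk.injEq]
        constructor
        · intro h
          exact ⟨b, a, h, rfl, rfl⟩
        · rintro ⟨c, d, h, rfl, rfl⟩
          exact h
      rw [this, Set.ncard_image_of_injective _ Prod.swap_injective]
    have e3' : Set.ncard {p : U × U | A.co p.2 p.1} = Set.ncard {p : U × U | A.co p.1 p.2} := by
      have : {p : U × U | A.co p.2 p.1} = Prod.swap '' {p : U × U | A.co p.1 p.2} := by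
        ext ⟨a, b⟩
        simp only [Set.mem_setOf_eq, Set.mem_image, Prod.exists, Prod.swap_prod_mk, Prod.mk.injEq]
        constructor
        · intro h
          exact ⟨b, a, h, rfl, rfl⟩
        · rintro ⟨c, d, h, rfl, rfl⟩
          exact h
      rw [this, Set.ncard_image_of_injective _ Prod.swap_injective]
    have hsub : {p : U × U | Adj (LU s (2 * C)) U p.1 p.2} ⊆
        ({p : U × U | A.nx p.1 p.2} ∪ {p : U × U | A.nx p.2 p.1}) ∪
        ({p : U × U | A.co p.1 p.2} ∪ {p : U × U | A.co p.2 p.1}) := by
      rintro ⟨a, b⟩ h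
      rcases adj_LU h with h | h | h | h
      · exact Or.inl (Or.inl h)
      · exact Or.inl (Or.inr h)
      · exact Or.inr (Or.inl h)
      · exact Or.inr (Or.inr h)
    rw [e1, e2, e3]
    calc _ ≤ _ := Set.ncard_le_ncard hsub (Set.toFinite _)
      _ ≤ _ := Set.ncard_union_le _ _
      _ ≤ _ := Nat.add_le_add (Set.ncard_union_le _ _) (Set.ncard_union_le _ _)
      _ = _ := by rw [e2', e3']
  unfold AvgDegLE
  set a := Nat.card {p : U × U // Adj (LU s (2 * C)) U p.1 p.2}
  set b := Nat.card {p : U × U // A.nx p.1 p.2}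
  set c := Nat.card {p : U × U // A.co p.1 p.2}
  set u := Nat.card U
  calc C * a ≤ C * (b + b + (c + c)) := Nat.mul_le_mul_left _ hle
    _ = 2 * C * b + 2 * C * c := by ring
    _ ≤ 2 * C * u + u := Nat.add_le_add (Nat.mul_le_mul_left _ h1) h2
    _ = (2 * C + 1) * u := by ring

theorem deg_U {s : Kn} {D C : ℕ} (hD : 0 < D) (κ₀ : s.ι) (hκ : C ≤ s.ar κ₀) {U : Type}
    [(LU s D).Structure U] [Finite U] (hA : (toRw s D U).Ax) :
    Nat.card {x : U // 3 < deg (LU s D) U x} ^ C ≤ Nat.card U := by
  classical
  set A := toRw s D U with hAdef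
  have hpt : ∀ x : U, 3 < deg (LU s D) U x → A.pt x := by
    intro x hx
    by_contra hnp
    have hsub : {y : U | Adj (LU s D) U x y} ⊆
        ({y : U | A.nx x y} ∪ {y : U | A.nx y x}) ∪ {y : U | A.co x y} := by
      intro y hy
      rcases adj_LU hy with h | h | h | h
      · exact Or.inl (Or.inl h)
      · exact Or.inl (Or.inr h)
      · exact Or.inr h
      · exact (hnp (hA.co_nd y x h).2).elim
    have s1 : Set.ncard {y : U | A.nx x y} ≤ 1 := by
      rw [Set.ncard_le_one (Set.toFinite _)]
      intro y hy z hz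
      obtain ⟨κ, j, hj, hj'⟩ := hA.nx_nd x y hy
      exact (hA.nx_ex κ j x hj hj'.1).unique hy hz
    have s2 : Set.ncard {y : U | A.nx y x} ≤ 1 := by
      rw [Set.ncard_le_one (Set.toFinite _)]
      intro y hy z hz
      obtain ⟨κ, j, hj, hj'⟩ := hA.nx_nd y x hy
      exact (hA.nx_inj κ j x hj').unique hy hz
    have s3 : Set.ncard {y : U | A.co x y} ≤ 1 := by
      rw [Set.ncard_le_one (Set.toFinite _)]
      intro y hy z hz
      obtain ⟨⟨κ, i, hi⟩, _⟩ := hA.co_nd x y hy
      exact (hA.co_ex κ i x hi).unique hy hz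
    have hd : deg (LU s D) U x = Set.ncard {y : U | Adj (LU s D) U x y} := rfl
    have : Set.ncard {y : U | Adj (LU s D) U x y} ≤ 3 := by
      calc _ ≤ _ := Set.ncard_le_ncard hsub (Set.toFinite _)
        _ ≤ _ := Set.ncard_union_le _ _
        _ ≤ _ := Nat.add_le_add_right (Set.ncard_union_le _ _) _
        _ ≤ 3 := by omega
    omega
  have hle : Nat.card {x : U // 3 < deg (LU s D) U x} ≤ Nat.card {x : U // A.pt x} :=
    Set.ncard_le_ncard (s := {x : U | 3 < deg (LU s D) U x}) (t := {x : U | A.pt x})
      (fun x hx => hpt x hx) (Set.toFinite _)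
  have hm : 1 ≤ Nat.card {x : U // A.pt x} := by
    obtain ⟨x, y, hx, _, _⟩ := hA.two
    have : Nonempty {x : U // A.pt x} := ⟨⟨x, hx⟩⟩
    exact Nat.card_pos
  rw [card_U A hA hD]
  set m := Nat.card {x : U // A.pt x}
  calc Nat.card {x : U // 3 < deg (LU s D) U x} ^ C ≤ m ^ C := Nat.pow_le_pow_left hle C
    _ ≤ m ^ s.ar κ₀ := Nat.pow_le_pow_right hm hκ
    _ ≤ D * (s.ar κ₀ + 1) * m ^ s.ar κ₀ := by
        apply Nat.le_mul_of_pos_left
        positivity
    _ ≤ ∑ κ : s.ι, D * (s.ar κ + 1) * m ^ s.ar κ :=
        Finset.single_le_sum (f := fun κ : s.ι => D * (s.ar κ + 1) * m ^ s.ar κ)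
          (fun _ _ => Nat.zero_le _) (Finset.mem_univ κ₀)
    _ ≤ NN s D m := by
        unfold NN
        omega

end Pool.Agent.Helper6.ED
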