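import Mathlib

set_option autoImplicit false

/-!
# ED-2: spanning forests of finite graphs

`par v = some w`: the parent of `v` is `w`; `par v = none`: `v` is a root.

Proof of `exists_forest`. For a connected component `c` choose a root `r c` in `c` (`Quot.out`, `c.exists_rep`), let
`ht v = G.dist v (r c)`, `c` the component of `v`. If `ht v = 0` then `v` is the root (`par v = none`). Otherwise a walk
of length `ht v` from `v` to the root (`SimpleGraph.Reachable.exists_walk_length_eq_dist`) starts with an edge `v w` with
`ht w < ht v` (`w` is in the same component, `SimpleGraph.dist_le`): `par v = some w`. The roots are in bijection with the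
components.
Proof of `card_marks`. The map from the vertices which are not roots to the ordered pairs `v ↦ (v, par v)` and the
map `v ↦ (par v, v)` are injective with disjoint images (heights), the images consist of the pairs of the forest. Every
`v` in `X` is the first entry of a pair outside these images (the relation in the definition of `X` is symmetric).
-/

namespace Pool.Agent.Helper6.ED

/-- A rooted spanning forest of `G`, with one root in every component. -/
structure Forest {V : Type} (G : SimpleGraph V) where
  par : V → Option V
  ht : V → ℕ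
  adj : ∀ v w, par v = some w → G.Adj v w
  lt : ∀ v w, par v = some w → ht w < ht v
  roots : Nat.card {v : V // par v = none} = Nat.card G.ConnectedComponent

/-- The end points of the edges which do not belong to the forest. -/
def Forest.X {V : Type} {G : SimpleGraph V} (F : Forest G) : Set V :=
  {v | ∃ w, G.Adj v w ∧ F.par v ≠ some w ∧ F.par w ≠ some v}

private theorem firstStep {V : Type} {G : SimpleGraph V} {v u : V} (p : G.Walk v u) (h : v ≠ u) :
    ∃ w, G.Adj v w ∧ ∃ q : G.Walk w u, q.length + 1 = p.length := by
  cases p with
  | nil => exact absurd rfl h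
  | cons h q => exact ⟨_, h, q, by simp⟩

theorem exists_forest {V : Type} [Finite V] (G : SimpleGraph V) : Nonempty (Forest G) := by
  classical
  let r : G.ConnectedComponent → V := fun c => Quot.out c
  have hr : ∀ c, G.connectedComponentMk (r c) = c := fun c => Quot.out_eq c
  let ht : V → ℕ := fun v => G.dist v (r (G.connectedComponentMk v))
  have hreach : ∀ v, G.Reachable v (r (G.connectedComponentMk v)) := fun v =>
    SimpleGraph.ConnectedComponent.exact (hr (G.connectedComponentMk v)).symm
  have h0 : ∀ v, ht v = 0 ↔ v = r (G.connectedComponentMk v) := fun v =>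
    (hreach v).dist_eq_zero_iff
  have key : ∀ v, ¬ ht v = 0 → ∃ w, G.Adj v w ∧ ht w < ht v := by
    intro v hv
    obtain ⟨p, hp⟩ := (hreach v).exists_walk_length_eq_dist
    have hne : v ≠ r (G.connectedComponentMk v) := fun h => hv ((h0 v).2 h)
    obtain ⟨w, h, q, hq⟩ := firstStep p hne
    refine ⟨w, h, ?_⟩
    have hc : G.connectedComponentMk w = G.connectedComponentMk v :=
      (SimpleGraph.ConnectedComponent.sound h.reachable).symm
    change G.dist w (r (G.connectedComponentMk w)) < G.dist v (r (G.connectedComponentMk v))
    rw [hc]
    have h1 : G.dist w (r (G.connectedComponentMk v)) ≤ q.length := SimpleGraph.dist_le q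
    omega
  refine ⟨{
    par := fun v => if h : ht v = 0 then none else some (key v h).choose
    ht := ht
    adj := ?_
    lt := ?_
    roots := ?_ }⟩
  · intro v w hvw
    by_cases h : ht v = 0
    · simp [h] at hvw
    · simp only [h, dite_false, Option.some.injEq] at hvw
      rw [← hvw]
      exact (key v h).choose_spec.1
  · intro v w hvw
    by_cases h : ht v = 0
    · simp [h] at hvw
    · simp only [h, dite_false, Option.some.injEq] at hvw
      rw [← hvw]
      exact (key v h).choose_spec.2
  · refine Nat.card_congr ?_
    have hpar : ∀ v, ((if h : ht v = 0 then none else some (key v h).choose) = (none : Option V)) ↔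
        v = r (G.connectedComponentMk v) := by
      intro v
      rw [← h0 v]
      by_cases h : ht v = 0 <;> simp [h]
    exact {
      toFun := fun v => G.connectedComponentMk v.1
      invFun := fun c => ⟨r c, (hpar (r c)).2 (by rw [hr c])⟩
      left_inv := by
        rintro ⟨v, hv⟩
        apply Subtype.ext
        exact ((hpar v).1 hv).symm
      right_inv := fun c => hr c }

theorem card_marks {V : Type} [Finite V] {G : SimpleGraph V} (F : Forest G) :
    Nat.card F.X + 2 * Nat.card V ≤
      Nat.card {p : V × V // G.Adj p.1 p.2} + 2 * Nat.card {v : V // F.par v = none} := by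
  classical
  let S : Set (V × V) := {p | G.Adj p.1 p.2}
  let R : Set V := {v | F.par v = none}
  let S1 : Set (V × V) := {p | F.par p.1 = some p.2}
  let S2 : Set (V × V) := {p | F.par p.2 = some p.1}
  have hS1 : S1 ⊆ S := fun p hp => F.adj _ _ hp
  have hS2 : S2 ⊆ S := fun p hp => (F.adj _ _ hp).symm
  have hc1 : S1.ncard = Rᶜ.ncard := by
    refine Set.ncard_congr (fun p _ => p.1) ?_ ?_ ?_
    · intro p hp
      change ¬ F.par p.1 = none
      have hp' : F.par p.1 = some p.2 := hp
      simp [hp']
    · intro p q hp hq hpq
      have hp' : F.par p.1 = some p.2 := hp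
      have hq' : F.par q.1 = some q.2 := hq
      have hpq' : p.1 = q.1 := hpq
      rw [hpq', hq'] at hp'
      exact Prod.ext hpq' (Option.some.inj hp').symm
    · intro v hv
      have hv' : ¬ F.par v = none := hv
      obtain ⟨w, hw⟩ := Option.ne_none_iff_exists'.1 hv'
      exact ⟨(v, w), hw, rfl⟩
  have hc2 : S2.ncard = Rᶜ.ncard := by
    refine Set.ncard_congr (fun p _ => p.2) ?_ ?_ ?_
    · intro p hp
      change ¬ F.par p.2 = none
      have hp' : F.par p.2 = some p.1 := hp
      simp [hp']
    · intro p q hp hq hpq
      have hp' : F.par p.2 = some p.1 := hp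
      have hq' : F.par q.2 = some q.1 := hq
      have hpq' : p.2 = q.2 := hpq
      rw [hpq', hq'] at hp'
      exact Prod.ext (Option.some.inj hp').symm hpq'
    · intro v hv
      have hv' : ¬ F.par v = none := hv
      obtain ⟨w, hw⟩ := Option.ne_none_iff_exists'.1 hv'
      exact ⟨(w, v), hw, rfl⟩
  have hdis : Disjoint S1 S2 := by
    rw [Set.disjoint_left]
    intro p h1 h2
    have a := F.lt _ _ h1
    have b := F.lt _ _ h2
    omega
  have hX : F.X.ncard ≤ (S \ (S1 ∪ S2)).ncard := by
    have hsub : F.X ⊆ Prod.fst '' (S \ (S1 ∪ S2)) := by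
      rintro v ⟨w, h1, h2, h3⟩
      refine ⟨(v, w), ⟨h1, ?_⟩, rfl⟩
      rintro (h | h)
      · exact h2 h
      · exact h3 h
    exact (Set.ncard_le_ncard hsub (Set.toFinite _)).trans (Set.ncard_image_le (Set.toFinite _))
  have hU : (S1 ∪ S2).ncard = S1.ncard + S2.ncard :=
    Set.ncard_union_eq hdis (Set.toFinite _) (Set.toFinite _)
  have hd : (S \ (S1 ∪ S2)).ncard + (S1 ∪ S2).ncard = S.ncard :=
    Set.ncard_sdiff_add_ncard_of_subset (Set.union_subset hS1 hS2) (Set.toFinite _)
  have hRc : R.ncard + Rᶜ.ncard = Nat.card V := Set.ncard_add_ncard_compl R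
  have e1 : Nat.card F.X = F.X.ncard := Nat.card_coe_set_eq _
  have e2 : Nat.card {p : V × V // G.Adj p.1 p.2} = S.ncard := Nat.card_coe_set_eq S
  have e3 : Nat.card {v : V // F.par v = none} = R.ncard := Nat.card_coe_set_eq R
  rw [e1, e2, e3]
  omega

end Pool.Agent.Helper6.ED
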