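import Mathlib

set_option autoImplicit false

/-! ED-4: rooted forests with marked vertices: the definitions. -/

namespace Pool.Agent.Helper6.ED

variable {V : Type}

/-- Except for two of its elements, all elements of `U` are unmarked, their parents and their
children belong to `U`. -/
def SmallF (par : V → Option V) (X U : Set V) : Prop :=
  ∃ a b : V, ∀ u ∈ U, u = a ∨ u = b ∨
    (u ∉ X ∧ (∀ w, par u = some w → w ∈ U) ∧ ∀ w, par w = some u → w ∈ U)

/-- A chain of `h + 1` sets with small boundary, the largest of them is `U`. -/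
def HC (par : V → Option V) (X : Set V) (h : ℕ) (U : Set V) : Prop :=
  ∃ f : ℕ → Set V, (∀ i < h, f i ⊂ f (i + 1)) ∧ f h = U ∧ ∀ i ≤ h, SmallF par X (f i)

theorem HC.zero {par : V → Option V} {X U : Set V} (h : SmallF par X U) : HC par X 0 U :=
  ⟨fun _ => U, fun i hi => absurd hi (by omega), rfl, fun _ _ => h⟩

theorem HC.succ {par : V → Option V} {X U U' : Set V} {h : ℕ} (hU : HC par X h U) (hs : U ⊂ U')
    (hU' : SmallF par X U') : HC par X (h + 1) U' := by
  obtain ⟨f, h1, h2, h3⟩ := hU
  refine ⟨fun i => if i ≤ h then f i else U', ?_, ?_, ?_⟩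
  · intro i hi
    by_cases hih : i + 1 ≤ h
    · simp only [hih, show i ≤ h by omega, if_true]
      exact h1 i (by omega)
    · have : i = h := by omega
      subst this
      simp only [le_refl, if_true, hih, if_false, h2]
      exact hs
  · simp
  · intro i hi
    by_cases hih : i ≤ h
    · simp only [hih, if_true]
      exact h3 i hih
    · simp only [hih, if_false]
      exact hU'

theorem HC.chain {par : V → Option V} {X U : Set V} {h : ℕ} (hU : HC par X h U) :
    ∃ f : Fin (h + 1) → Set V, StrictMono f ∧ ∀ i, SmallF par X (f i) := by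
  obtain ⟨f, h1, -, h3⟩ := hU
  refine ⟨fun i => f i, Fin.strictMono_iff_lt_succ.2 fun i => ?_, fun i => h3 i (by omega)⟩
  exact h1 i i.2

end Pool.Agent.Helper6.ED
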