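import Mathlib
import Pool.Agent.Helper6.ED.TreeDefs

set_option autoImplicit false

/-!
# ED-4: rooted forests with few marked vertices have long chains of sets with small boundary

Notation. `desc v` = the set of the descendants of `v`, including `v` (`Relation.ReflTransGen` of the relation
`par u = some v`), the disjoint union of `{v}` and the sets `desc c`, `c` a child of `v`. `m v` = the number of elements
of `X` in `desc v`; `v` is called marked if `m v > 0`. Suppose that there is no chain of `N + 1` sets. Then
(a) a vertex has less than `N` unmarked children: for a finite set `T` of unmarked children of `v` the set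
`{v} ∪ ⋃ c ∈ T, desc c` has the end of a chain of `T.card + 1` sets (`HC`, induction on `T`, `a = b = v`).
(b) For unmarked `v` and all `h`: `(desc v).ncard ≤ B h` or `HC h (desc v)` (`a = b = v`), where `B 0 = 0`,
`B (h + 1) = 1 + N * B h`: induction on `h`, if one of the children satisfies `HC h (desc c)` use `HC.succ`. So
`(desc v).ncard ≤ B N`.
(c) `F v = {v} ∪ ⋃ c unmarked child, desc c` has at most `1 + N * B N` elements.
(d) Let `E v b W`: `v, b ∈ W` and every `u ∈ W`, `u ≠ b`, is not in `X`, has all its children in `W`, and its parent is in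
`W` or `u = v`. Then `SmallF W`. Claim, for every marked `v`, by induction (on the number of descendants): there is
`t ≤ N`, `t = 0` or `∃ b W, HC (t - 1) W ∧ E v b W`, with `φ v + (2 * N + 3) ≤ 2 * (N + 2) * m v + t`, where `φ v` is the
number of marked elements of `desc v`. If `v ∉ X` and `v` has exactly one marked child `c` with `(t, b, W)`: take `F v ∪ W`
(or `F v`, `b = v` if `t = 0`) and `t + 1`; `t + 1 ≤ N` because there is no chain of `N + 1` sets. Otherwise `t = 0`:
`φ v = 1 + ∑ φ c ≤ 1 + ∑ (2 (N + 2) m c - (N + 3))` over the marked children `c`, and `m v = ∑ m c + [v ∈ X]`; there is at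
least one marked child less than two only if `v ∈ X`.
(e) The number of marked vertices is at most `2 * (N + 2) * X.ncard` (sum over the marked roots). Every vertex is in `F u`
for a marked `u` or in `desc r` for an unmarked root `r`. So
`card V ≤ 2 * (N + 2) * (1 + N * B N) * X.ncard + B N * (number of roots)`.
-/

namespace Pool.Agent.Helper6.ED

namespace TreeAux

variable {V : Type}

/-- `u` is a descendant of `v` or equal to `v`. -/
def D (par : V → Option V) (u v : V) : Prop :=
  Relation.ReflTransGen (fun a b => par a = some b) u v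

variable {par : V → Option V} {ht : V → ℕ} {X : Set V}

theorem D.rfl' {u : V} : D par u u := Relation.ReflTransGen.refl

theorem D.head {u w v : V} (h : par u = some w) (h' : D par w v) : D par u v :=
  Relation.ReflTransGen.head h h'

theorem D.tail {u w v : V} (h : D par u w) (h' : par w = some v) : D par u v :=
  Relation.ReflTransGen.tail h h'

theorem D.trans {u w v : V} (h : D par u w) (h' : D par w v) : D par u v :=
  Relation.ReflTransGen.trans h h'

theorem D.ht_le (H : ∀ v w, par v = some w → ht w < ht v) {u v : V} (h : D par u v) :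
    ht v ≤ ht u := by
  induction h with
  | refl => exact le_rfl
  | tail _ h' ih => exact (H _ _ h').le.trans ih

theorem D.up {u v : V} (h : D par u v) : u = v ∨ ∃ w, par u = some w ∧ D par w v :=
  Relation.ReflTransGen.cases_head h

theorem D.down {u v : V} (h : D par u v) : u = v ∨ ∃ c, D par u c ∧ par c = some v := by
  rcases Relation.ReflTransGen.cases_tail h with h | h
  · exact Or.inl h.symm
  · exact Or.inr h

theorem D.par_mem {u v w : V} (h : D par u v) (hne : u ≠ v) (hw : par u = some w) :
    D par w v := by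
  rcases h.up with h | ⟨w', h1, h2⟩
  · exact absurd h hne
  · rw [hw] at h1
    cases h1
    exact h2

theorem D.ht_lt (H : ∀ v w, par v = some w → ht w < ht v) {u v : V} (h : D par u v)
    (hne : u ≠ v) : ht v < ht u := by
  rcases h.up with h | ⟨w', h1, h2⟩
  · exact absurd h hne
  · exact (h2.ht_le H).trans_lt (H _ _ h1)

theorem D.total {u v w : V} (h : D par u v) (h' : D par u w) : D par v w ∨ D par w v := by
  induction h with
  | refl => exact Or.inl h'
  | tail h1 h2 ih =>
    rcases ih with ih | ih
    · rcases ih.up with h3 | ⟨z, h3, h4⟩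
      · subst h3
        exact Or.inr (D.tail D.rfl' h2)
      · rw [h2] at h3
        cases h3
        exact Or.inl h4
    · exact Or.inr (ih.tail h2)

/-- No element of `X` descends from `v`. -/
def Unm (par : V → Option V) (X : Set V) (v : V) : Prop := ∀ x ∈ X, ¬ D par x v

theorem Unm.desc {u v : V} (h : Unm par X v) (hu : D par u v) : Unm par X u :=
  fun x hx hxu => h x hx (hxu.trans hu)

theorem smallF_desc {v : V} (h : Unm par X v) : SmallF par X {u | D par u v} := by
  refine ⟨v, v, fun u hu => ?_⟩
  by_cases huv : u = v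
  · exact Or.inl huv
  · exact Or.inr (Or.inr ⟨fun hx => h u hx hu, fun w hw => hu.par_mem huv hw,
      fun w hw => D.head hw hu⟩)

theorem hc_children (H : ∀ v w, par v = some w → ht w < ht v) {v : V} (T : Finset V)
    (hT : ∀ c ∈ T, par c = some v ∧ Unm par X c) :
    HC par X T.card {u | u = v ∨ ∃ c ∈ T, D par u c} := by
  classical
  have small : ∀ T : Finset V, (∀ c ∈ T, par c = some v ∧ Unm par X c) →
      SmallF par X {u | u = v ∨ ∃ c ∈ T, D par u c} := by
    intro T hT
    refine ⟨v, v, ?_⟩
    rintro u (rfl | ⟨c, hc, hu⟩)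
    · exact Or.inl rfl
    · refine Or.inr (Or.inr ⟨fun hx => (hT c hc).2 u hx hu, fun w hw => ?_,
        fun w hw => Or.inr ⟨c, hc, D.head hw hu⟩⟩)
      by_cases huc : u = c
      · subst huc
        rw [(hT u hc).1] at hw
        cases hw
        exact Or.inl rfl
      · exact Or.inr ⟨c, hc, hu.par_mem huc hw⟩
  induction T using Finset.induction_on with
  | empty => exact HC.zero (small ∅ hT)
  | insert c T hc ih =>
    rw [Finset.card_insert_of_notMem hc]
    refine HC.succ (ih (fun c' h => hT c' (Finset.mem_insert_of_mem h))) ?_ (small _ hT)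
    refine ⟨?_, fun hsub => ?_⟩
    · rintro u (h | ⟨c', h1, h2⟩)
      · exact Or.inl h
      · exact Or.inr ⟨c', Finset.mem_insert_of_mem h1, h2⟩
    · have hcv := (hT c (Finset.mem_insert_self c T)).1
      have hmem : c ∈ {u | u = v ∨ ∃ c ∈ T, D par u c} :=
        hsub (Or.inr ⟨c, Finset.mem_insert_self c T, D.rfl'⟩)
      rcases hmem with h | ⟨c', h1, h2⟩
      · have := H c v hcv
        rw [h] at this
        exact lt_irrefl _ this
      · have hne : c ≠ c' := fun h => hc (h ▸ h1)
        have h3 : D par v c' := h2.par_mem hne hcv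
        have h4 := h3.ht_le H
        have h5 := H c' v (hT c' (Finset.mem_insert_of_mem h1)).1
        omega

theorem HC.lt {N : ℕ} (hN : ∀ U, ¬ HC par X N U) {k : ℕ} {U : Set V} (h : HC par X k U) :
    k < N := by
  by_contra hk
  push Not at hk
  obtain ⟨f, h1, -, h3⟩ := h
  exact hN (f N) ⟨f, fun i hi => h1 i (by omega), rfl, fun i hi => h3 i (by omega)⟩

/-- The bound for the sets of the descendants of the unmarked vertices. -/
def B (N : ℕ) : ℕ → ℕ
  | 0 => 0
  | h + 1 => 1 + N * B N h

section Fin

variable [Fintype V]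

open Classical in
/-- The descendants of `v`. -/
noncomputable def desc (par : V → Option V) (v : V) : Finset V :=
  Finset.univ.filter (fun u => D par u v)

open Classical in
/-- The unmarked children of `v`. -/
noncomputable def uch (par : V → Option V) (X : Set V) (v : V) : Finset V :=
  Finset.univ.filter (fun c => par c = some v ∧ Unm par X c)

open Classical in
/-- `v` and the descendants of its unmarked children. -/
noncomputable def F (par : V → Option V) (X : Set V) (v : V) : Finset V :=
  insert v ((uch par X v).biUnion (desc par))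

theorem mem_desc {u v : V} : u ∈ desc par v ↔ D par u v := by
  simp [desc]

theorem mem_uch {c v : V} : c ∈ uch par X v ↔ par c = some v ∧ Unm par X c := by
  simp [uch]

theorem mem_F {u v : V} :
    u ∈ F par X v ↔ u = v ∨ ∃ c, (par c = some v ∧ Unm par X c) ∧ D par u c := by
  simp [F, mem_desc, mem_uch]

theorem card_uch (H : ∀ v w, par v = some w → ht w < ht v) {N : ℕ}
    (hN : ∀ U, ¬ HC par X N U) (v : V) : (uch par X v).card < N :=
  HC.lt hN (hc_children H (uch par X v) fun _ hc => mem_uch.1 hc)

theorem card_F_le (H : ∀ v w, par v = some w → ht w < ht v) {N b : ℕ}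
    (hN : ∀ U, ¬ HC par X N U) (v : V) (hb : ∀ c ∈ uch par X v, (desc par c).card ≤ b) :
    (F par X v).card ≤ 1 + N * b := by
  classical
  have h1 : (F par X v).card ≤ ((uch par X v).biUnion (desc par)).card + 1 :=
    Finset.card_insert_le _ _
  have h2 : ((uch par X v).biUnion (desc par)).card ≤ (uch par X v).card * b :=
    Finset.card_biUnion_le_card_mul _ _ _ hb
  have h3 : (uch par X v).card * b ≤ N * b := Nat.mul_le_mul_right _ (card_uch H hN v).le
  omega

theorem desc_sub_F {v : V} (hv : Unm par X v) : desc par v ⊆ F par X v := by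
  intro u hu
  rw [mem_desc] at hu
  rw [mem_F]
  rcases hu.down with h | ⟨c, h1, h2⟩
  · exact Or.inl h
  · exact Or.inr ⟨c, ⟨h2, hv.desc (D.tail D.rfl' h2)⟩, h1⟩

theorem hc_desc (H : ∀ v w, par v = some w → ht w < ht v) {N : ℕ}
    (hN : ∀ U, ¬ HC par X N U) (h : ℕ) (v : V) (hv : Unm par X v)
    (hB : B N h < (desc par v).card) : HC par X h {u | D par u v} := by
  induction h generalizing v with
  | zero => exact HC.zero (smallF_desc hv)
  | succ h ih =>
    by_cases hc : ∃ c ∈ uch par X v, B N h < (desc par c).card
    · obtain ⟨c, hc, hBc⟩ := hc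
      obtain ⟨h1, h2⟩ := mem_uch.1 hc
      refine HC.succ (ih c h2 hBc) ⟨fun u hu => D.tail hu h1, fun hsub => ?_⟩ (smallF_desc hv)
      have h3 : D par v c := hsub (D.rfl' : D par v v)
      have h4 := h3.ht_le H
      have h5 := H c v h1
      omega
    · push Not at hc
      have h1 := card_F_le H hN v hc
      have h2 := Finset.card_le_card (desc_sub_F (par := par) hv)
      have h3 : B N (h + 1) = 1 + N * B N h := rfl
      omega

theorem card_desc_le (H : ∀ v w, par v = some w → ht w < ht v) {N : ℕ}
    (hN : ∀ U, ¬ HC par X N U) {v : V} (hv : Unm par X v) : (desc par v).card ≤ B N N := by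
  by_contra hlt
  push Not at hlt
  exact hN _ (hc_desc H hN N v hv hlt)

/-! ## The marked vertices -/

omit [Fintype V] in
theorem smallF_diff {g g' v : V} (hg : par g = some g') (hX : ∀ x ∈ X, D par x v → D par x g) :
    SmallF par X {u | D par u v ∧ ¬ D par u g} := by
  refine ⟨v, g', fun u hu => ?_⟩
  obtain ⟨hu1, hu2⟩ := hu
  by_cases huv : u = v
  · exact Or.inl huv
  by_cases hug : u = g'
  · exact Or.inr (Or.inl hug)
  refine Or.inr (Or.inr ⟨fun hx => hu2 (hX u hx hu1), fun w hw =>
    ⟨hu1.par_mem huv hw, fun h => hu2 (D.head hw h)⟩, fun w hw => ⟨D.head hw hu1, fun h => ?_⟩⟩)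
  by_cases hwg : w = g
  · subst hwg
    rw [hg] at hw
    cases hw
    exact hug rfl
  · exact hu2 (h.par_mem hwg hw)

theorem hc_path (H : ∀ v w, par v = some w → ht w < ht v) {g v : V} (h : D par g v)
    (hX : ∀ x ∈ X, D par x v → D par x g) :
    v = g ∨ ∃ k, HC par X k {u | D par u v ∧ ¬ D par u g} ∧
      {w | D par g w ∧ D par w v}.ncard ≤ k + 2 := by
  induction h with
  | refl => exact Or.inl rfl
  | @tail v v' h1 h2 ih =>
    right
    have hD : D par v v' := D.tail D.rfl' h2
    have hsub : {w | D par g w ∧ D par w v'} ⊆ insert v' {w | D par g w ∧ D par w v} := by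
      rintro w ⟨hw1, hw2⟩
      rcases hw2.down with h | ⟨c, h3, h4⟩
      · exact Or.inl h
      · refine Or.inr ⟨hw1, ?_⟩
        have hcv : c = v := by
          by_contra hne
          rcases D.total (hw1.trans h3) h1 with h5 | h5
          · have h6 := (h5.par_mem hne h4).ht_le H
            have h7 := H v v' h2
            omega
          · have h6 := (h5.par_mem (Ne.symm hne) h2).ht_le H
            have h7 := H c v' h4
            omega
        rw [← hcv]
        exact h3
    have hcard : {w | D par g w ∧ D par w v'}.ncard ≤ {w | D par g w ∧ D par w v}.ncard + 1 :=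
      (Set.ncard_le_ncard hsub (Set.toFinite _)).trans (Set.ncard_insert_le _ _)
    rcases D.up (h1.tail h2 : D par g v') with h3 | ⟨g', hg', -⟩
    · exfalso
      have h4 := D.ht_le H h1
      have h5 := H v v' h2
      rw [h3] at h4
      omega
    rcases ih (fun x hx hxv => hX x hx (hxv.trans hD)) with h3 | ⟨k, h3, h4⟩
    · refine ⟨0, HC.zero (smallF_diff hg' hX), hcard.trans ?_⟩
      have : {w | D par g w ∧ D par w v} ⊆ {v} := by
        rintro w ⟨hw1, hw2⟩
        rw [← h3] at hw1
        by_contra hne
        have h5 := D.ht_le H hw1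
        have h6 := D.ht_lt H hw2 hne
        omega
      have h5 := (Set.ncard_le_ncard this (Set.toFinite _))
      rw [Set.ncard_singleton] at h5
      omega
    · refine ⟨k + 1, HC.succ h3 ⟨fun u hu => ⟨hu.1.trans hD, hu.2⟩, fun hs => ?_⟩
        (smallF_diff hg' hX), by omega⟩
      have h5 : D par v' v := (hs (⟨D.rfl', fun h => ?_⟩ : D par v' v' ∧ ¬ D par v' g)).1
      · have h6 := h5.ht_le H
        have h7 := H v v' h2
        omega
      · have h6 := h.ht_le H
        have h7 := D.ht_le H h1
        have h8 := H v v' h2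
        omega

theorem card_path (H : ∀ v w, par v = some w → ht w < ht v) {N : ℕ}
    (hN : ∀ U, ¬ HC par X N U) (g : V) :
    {v | D par g v ∧ ∀ x ∈ X, D par x v → D par x g}.ncard ≤ N + 1 := by
  have hne : {v | D par g v ∧ ∀ x ∈ X, D par x v → D par x g}.Nonempty :=
    ⟨g, D.rfl', fun _ _ h => h⟩
  obtain ⟨v, hv, hmin⟩ := Set.exists_min_image _ ht (Set.toFinite _) hne
  have hsub : {v | D par g v ∧ ∀ x ∈ X, D par x v → D par x g} ⊆
      {w | D par g w ∧ D par w v} := by
    rintro w hw
    refine ⟨hw.1, ?_⟩
    rcases D.total hw.1 hv.1 with h | h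
    · exact h
    · by_cases hvw : v = w
      · rw [hvw]
        exact D.rfl'
      · have h1 := h.ht_lt H hvw
        have h2 := hmin w hw
        omega
  refine (Set.ncard_le_ncard hsub (Set.toFinite _)).trans ?_
  rcases hc_path H hv.1 hv.2 with h | ⟨k, h1, h2⟩
  · have : {w | D par g w ∧ D par w v} ⊆ {v} := by
      rintro w ⟨hw1, hw2⟩
      rw [← h] at hw1
      by_contra hne
      have h5 := D.ht_le H hw1
      have h6 := D.ht_lt H hw2 hne
      omega
    have h5 := (Set.ncard_le_ncard this (Set.toFinite _))
    rw [Set.ncard_singleton] at h5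
    omega
  · have := HC.lt hN h1
    omega

open Classical in
/-- The marked vertices. -/
noncomputable def mk (par : V → Option V) (X : Set V) : Finset V :=
  Finset.univ.filter (fun v => ¬ Unm par X v)

theorem mem_mk {v : V} : v ∈ mk par X ↔ ¬ Unm par X v := by
  simp [mk]

open Classical in
/-- The marked children of `v`. -/
noncomputable def kids (par : V → Option V) (X : Set V) (v : V) : Finset V :=
  (mk par X).filter (fun c => par c = some v)

theorem mem_kids {c v : V} : c ∈ kids par X v ↔ ¬ Unm par X c ∧ par c = some v := by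
  simp [kids, mem_mk]

open Classical in
/-- The marked vertices which belong to `X` or have at least two marked children. -/
noncomputable def np (par : V → Option V) (X : Set V) : Finset V :=
  (mk par X).filter (fun v => v ∈ X ∨ 2 ≤ (kids par X v).card)

theorem mem_np {v : V} :
    v ∈ np par X ↔ v ∈ mk par X ∧ (v ∈ X ∨ 2 ≤ (kids par X v).card) := by
  simp [np]

theorem kids_pos {v : V} (hv : v ∈ mk par X) (hX : v ∉ X) : 1 ≤ (kids par X v).card := by
  rw [mem_mk] at hv
  unfold Unm at hv
  push Not at hv
  obtain ⟨x, hx, hxv⟩ := hv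
  rcases hxv.down with h | ⟨c, h1, h2⟩
  · exact absurd (h ▸ hx) hX
  · refine Finset.card_pos.2 ⟨c, mem_kids.2 ⟨fun h => h x hx h1, h2⟩⟩

open Classical in
theorem card_np : (np par X).card ≤ 2 * ((Finset.univ : Finset V).filter (· ∈ X)).card := by
  have h1 : ∑ v ∈ mk par X, (kids par X v).card ≤ (mk par X).card := by
    rw [← Finset.card_biUnion]
    · refine Finset.card_le_card fun c hc => ?_
      rw [Finset.mem_biUnion] at hc
      obtain ⟨v, -, hc⟩ := hc
      exact mem_mk.2 (mem_kids.1 hc).1
    · intro v _ w _ hvw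
      rw [Function.onFun, Finset.disjoint_left]
      intro c hc hc'
      have h1 := (mem_kids.1 hc).2
      rw [(mem_kids.1 hc').2] at h1
      cases h1
      exact hvw rfl
  have h2 : ∀ v ∈ mk par X, 1 + (if v ∈ np par X then 1 else 0) ≤
      (kids par X v).card + 2 * (if v ∈ X then 1 else 0) := by
    intro v hv
    by_cases hX : v ∈ X
    · simp only [hX, if_true]
      split_ifs <;> omega
    · simp only [hX, if_false]
      have h3 := kids_pos hv hX
      split_ifs with h4
      · rcases (mem_np.1 h4).2 with h5 | h5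
        · exact absurd h5 hX
        · omega
      · omega
  have h3 := Finset.sum_le_sum h2
  rw [Finset.sum_add_distrib, Finset.sum_add_distrib, ← Finset.mul_sum, ← Finset.card_eq_sum_ones,
    ← Finset.card_filter, ← Finset.card_filter] at h3
  have h4 : (mk par X).filter (· ∈ np par X) = np par X := by
    ext v
    simp only [Finset.mem_filter, mem_np]
    tauto
  have h5 : ((mk par X).filter (· ∈ X)).card ≤
      ((Finset.univ : Finset V).filter (· ∈ X)).card :=
    Finset.card_le_card (Finset.filter_subset_filter _ (Finset.subset_univ _))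
  rw [h4] at h3
  omega

theorem exists_np (H : ∀ v w, par v = some w → ht w < ht v) {v : V} (hv : v ∈ mk par X) :
    ∃ g ∈ np par X, D par g v ∧ ∀ x ∈ X, D par x v → D par x g := by
  classical
  obtain ⟨b, hb⟩ : ∃ b, ∀ v, ht v ≤ b := by
    refine ⟨Finset.univ.sup ht, fun v => Finset.le_sup (Finset.mem_univ v)⟩
  induction hn : b - ht v using Nat.strong_induction_on generalizing v with
  | _ n ih =>
    by_cases hvp : v ∈ np par X
    · exact ⟨v, hvp, D.rfl', fun _ _ h => h⟩
    · have h0 : ¬ (v ∈ X ∨ 2 ≤ (kids par X v).card) := fun h => hvp (mem_np.2 ⟨hv, h⟩)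
      push Not at h0
      have h1 : (kids par X v).card = 1 := by
        have := kids_pos hv h0.1
        omega
      obtain ⟨c, hc⟩ := Finset.card_eq_one.1 h1
      have hcm : c ∈ kids par X v := by rw [hc]; exact Finset.mem_singleton_self c
      obtain ⟨hc1, hc2⟩ := mem_kids.1 hcm
      have hlt := H c v hc2
      have hbc := hb c
      obtain ⟨g, hg, hg1, hg2⟩ := ih (b - ht c) (by omega) (mem_mk.2 hc1) rfl
      refine ⟨g, hg, hg1.tail hc2, fun x hx hxv => hg2 x hx ?_⟩
      rcases hxv.down with h | ⟨c', h3, h4⟩
      · exact absurd (h ▸ hx) h0.1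
      · have : c' ∈ kids par X v := mem_kids.2 ⟨fun h => h x hx h3, h4⟩
        rw [hc, Finset.mem_singleton] at this
        rw [← this]
        exact h3

open Classical in
theorem card_mk (H : ∀ v w, par v = some w → ht w < ht v) {N : ℕ}
    (hN : ∀ U, ¬ HC par X N U) :
    (mk par X).card ≤ 2 * ((Finset.univ : Finset V).filter (· ∈ X)).card * (N + 1) := by
  have h1 : mk par X ⊆ (np par X).biUnion (fun g =>
      Finset.univ.filter (fun v => D par g v ∧ ∀ x ∈ X, D par x v → D par x g)) := by
    intro v hv
    obtain ⟨g, hg, h⟩ := exists_np H hv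
    exact Finset.mem_biUnion.2 ⟨g, hg, Finset.mem_filter.2 ⟨Finset.mem_univ v, h⟩⟩
  refine (Finset.card_le_card h1).trans ((Finset.card_biUnion_le_card_mul _ _ (N + 1)
    fun g _ => ?_).trans (Nat.mul_le_mul_right _ card_np))
  have h2 := card_path H hN g
  rw [Set.ncard_eq_toFinset_card'] at h2
  refine le_trans (le_of_eq ?_) h2
  congr 1
  ext v
  simp

theorem cover (H : ∀ v w, par v = some w → ht w < ht v) (u : V) :
    (∃ v ∈ mk par X, u ∈ F par X v) ∨ ∃ r, par r = none ∧ Unm par X r ∧ u ∈ desc par r := by
  by_cases hu : Unm par X u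
  · obtain ⟨w, hw, hmin⟩ := Set.exists_min_image {w | D par u w ∧ Unm par X w} ht (Set.toFinite _)
      ⟨u, D.rfl', hu⟩
    cases hp : par w with
    | none => exact Or.inr ⟨w, hp, hw.2, mem_desc.2 hw.1⟩
    | some p =>
      refine Or.inl ⟨p, mem_mk.2 fun hpU => ?_, mem_F.2 (Or.inr ⟨w, ⟨hp, hw.2⟩, hw.1⟩)⟩
      have h1 := hmin p ⟨hw.1.tail hp, hpU⟩
      have h2 := H w p hp
      omega
  · exact Or.inl ⟨u, mem_mk.2 hu, mem_F.2 (Or.inl rfl)⟩

end Fin

end TreeAux

open TreeAux

theorem tree_bound (N : ℕ) : ∃ K : ℕ, ∀ (V : Type) [Finite V] (par : V → Option V) (ht : V → ℕ)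
    (X : Set V), (∀ v w, par v = some w → ht w < ht v) →
    (¬ ∃ U : Fin (N + 1) → Set V, StrictMono U ∧ ∀ i, SmallF par X (U i)) →
    Nat.card V ≤ K * (Nat.card X + Nat.card {v : V // par v = none}) := by
  refine ⟨2 * (N + 1) * (1 + N * B N N) + B N N, fun V _ par ht X H hno => ?_⟩
  classical
  have := Fintype.ofFinite V
  have hN : ∀ U, ¬ HC par X N U := fun U hU => hno hU.chain
  have h1 : (Finset.univ : Finset V) ⊆ (mk par X).biUnion (F par X) ∪
      (Finset.univ.filter (fun r : V => par r = none ∧ Unm par X r)).biUnion (desc par) := by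
    intro u _
    rw [Finset.mem_union, Finset.mem_biUnion, Finset.mem_biUnion]
    rcases cover (X := X) H u with ⟨v, hv, h⟩ | ⟨r, h1, h2, h3⟩
    · exact Or.inl ⟨v, hv, h⟩
    · exact Or.inr ⟨r, Finset.mem_filter.2 ⟨Finset.mem_univ r, h1, h2⟩, h3⟩
  have h2 := (Finset.card_le_card h1).trans (Finset.card_union_le _ _)
  have h3 : ((mk par X).biUnion (F par X)).card ≤ (mk par X).card * (1 + N * B N N) :=
    Finset.card_biUnion_le_card_mul _ _ _ fun v _ =>
      card_F_le H hN v fun c hc => card_desc_le H hN (mem_uch.1 hc).2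
  have h4 : ((Finset.univ.filter (fun r : V => par r = none ∧ Unm par X r)).biUnion
      (desc par)).card ≤
      (Finset.univ.filter (fun r : V => par r = none ∧ Unm par X r)).card * B N N :=
    Finset.card_biUnion_le_card_mul _ _ _ fun r hr =>
      card_desc_le H hN (Finset.mem_filter.1 hr).2.2
  have h5 : (Finset.univ.filter (fun r : V => par r = none ∧ Unm par X r)).card ≤
      Nat.card {v : V // par v = none} := by
    rw [Nat.card_eq_fintype_card, Fintype.card_subtype]
    exact Finset.card_le_card fun r hr =>
      Finset.mem_filter.2 ⟨Finset.mem_univ r, (Finset.mem_filter.1 hr).2.1⟩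
  have h6 : ((Finset.univ : Finset V).filter (· ∈ X)).card = Nat.card X := by
    rw [Nat.card_eq_fintype_card, Fintype.card_subtype]
  have h7 := card_mk H hN (X := X)
  rw [h6] at h7
  rw [Finset.card_univ] at h2
  rw [Nat.card_eq_fintype_card (α := V)]
  set a := Nat.card X
  set r := Nat.card {v : V // par v = none}
  set b := B N N
  calc Fintype.card V ≤ (mk par X).card * (1 + N * b) +
        (Finset.univ.filter (fun r : V => par r = none ∧ Unm par X r)).card * b := by omega
    _ ≤ (2 * a * (N + 1)) * (1 + N * b) + r * b :=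
        Nat.add_le_add (Nat.mul_le_mul_right _ h7) (Nat.mul_le_mul_right _ h5)
    _ ≤ (2 * (N + 1) * (1 + N * b) + b) * (a + r) := by
        have : (2 * (N + 1) * (1 + N * b) + b) * (a + r) =
          (2 * a * (N + 1)) * (1 + N * b) + r * b + (2 * (N + 1) * (1 + N * b) * r + b * a) := by
          ring
        omega

end Pool.Agent.Helper6.ED
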