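import Mathlib
import Pool.Agent.Helper6.ED.Defs
import Pool.Agent.Helper6.ED.Forest
import Pool.Agent.Helper6.ED.Comps
import Pool.Agent.Helper6.ED.Tree

set_option autoImplicit false

/-! ED-5: a vertex set with few boundary vertices, in which the average degree is close to two, has
many nested subsets with at most two boundary vertices. -/

namespace Pool.Agent.Helper6.ED

theorem graph_chain (N : ℕ) : ∃ C n₀ : ℕ, 0 < C ∧ ∀ (V : Type) [Finite V] (G : SimpleGraph V)
    (Z : Set V), n₀ ≤ Nat.card V → C * Nat.card Z ≤ Nat.card V →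
    C * Nat.card {p : V × V // G.Adj p.1 p.2} ≤ (2 * C + 1) * Nat.card V →
    ∃ U : Fin (N + 1) → Set V, StrictMono U ∧ ∀ i, ∃ a b : V, ∀ u ∈ U i,
      u = a ∨ u = b ∨ (u ∉ Z ∧ ∀ w, G.Adj u w → w ∈ U i) := by
  obtain ⟨K, hK⟩ := tree_bound N
  refine ⟨10 * K + 1, 6 * K * N + 1, by omega, ?_⟩
  intro V _ G Z hn hZ hC
  have hne : Nonempty V := by
    have : Nat.card V ≠ 0 := by omega
    exact (Nat.card_ne_zero.1 this).1
  by_cases hcomp : N + Nat.card Z ≤ Nat.card G.ConnectedComponent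
  · obtain ⟨U, hU1, hU2⟩ := chain_of_components G N Z hcomp
    obtain ⟨a⟩ := hne
    exact ⟨U, hU1, fun i => ⟨a, a, fun u hu => Or.inr (Or.inr (hU2 i u hu))⟩⟩
  obtain ⟨F⟩ := exists_forest G
  by_contra hno
  have h1 : ¬ ∃ U : Fin (N + 1) → Set V, StrictMono U ∧ ∀ i, SmallF F.par (F.X ∪ Z) (U i) := by
    rintro ⟨U, hU, hU2⟩
    refine hno ⟨U, hU, fun i => ?_⟩
    obtain ⟨a, b, hab⟩ := hU2 i
    refine ⟨a, b, fun u hu => ?_⟩
    rcases hab u hu with h | h | ⟨hX, hp, hc⟩
    · exact Or.inl h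
    · exact Or.inr (Or.inl h)
    · refine Or.inr (Or.inr ⟨fun hz => hX (Or.inr hz), fun w huw => ?_⟩)
      by_contra hw
      exact hX (Or.inl ⟨w, huw, fun h => hw (hp w h), fun h => hw (hc w h)⟩)
  have h2 := hK V F.par F.ht (F.X ∪ Z) F.lt h1
  have h3 := card_marks F
  rw [F.roots] at h2 h3
  have h9 : Nat.card (F.X ∪ Z : Set V) ≤ Nat.card F.X + Nat.card Z :=
    Set.ncard_union_le _ _
  set n := Nat.card V
  set k := Nat.card G.ConnectedComponent
  set P := Nat.card {p : V × V // G.Adj p.1 p.2}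
  set x := Nat.card F.X
  set z := Nat.card Z
  set y := Nat.card (F.X ∪ Z : Set V)
  have hk : k < N + z := not_le.1 hcomp
  have h10 : n ≤ K * (x + z + k) := h2.trans (Nat.mul_le_mul_left _ (by omega))
  -- C x ≤ n + 2 C k, C z ≤ n
  have h4 : (10 * K + 1) * (x + 2 * n) ≤ (10 * K + 1) * (P + 2 * k) := Nat.mul_le_mul_left _ h3
  have h5 : (10 * K + 1) * x ≤ n + (10 * K + 1) * (2 * k) := by nlinarith
  rcases Nat.eq_zero_or_pos K with hK0 | hK0
  · subst hK0
    omega
  -- 10 K x + 10 K z + 10 K k ≤ ...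
  have h6 : 10 * n ≤ 10 * K * x + 10 * K * z + 10 * K * k := by nlinarith
  have h7 : 10 * K * x ≤ n + 10 * K * (2 * k) := by
    have e1 : (10 * K + 1) * x = 10 * K * x + x := by ring
    have e2 : (10 * K + 1) * (2 * k) = 10 * K * (2 * k) + 2 * k := by ring
    rw [e1, e2] at h5
    by_contra h
    have hx : x < 2 * k := by omega
    have h11 : 10 * K * x ≤ 10 * K * (2 * k) := Nat.mul_le_mul_left _ hx.le
    omega
  have h8 : 10 * K * k ≤ 10 * K * (N + z) := Nat.mul_le_mul_left _ hk.le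
  have h12 : 10 * K * z ≤ n := by
    have e1 : (10 * K + 1) * z = 10 * K * z + z := by ring
    omega
  have e3 : 10 * K * (2 * k) = 2 * (10 * K * k) := by ring
  have e4 : 10 * K * (N + z) = 10 * (K * N) + 10 * K * z := by ring
  have e5 : 6 * K * N = 6 * (K * N) := by ring
  rw [e3] at h7
  rw [e4] at h8
  rw [e5] at hn
  omega

end Pool.Agent.Helper6.ED
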