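import Mathlib
import Pool.Agent.Helper6.ED.Barrier

set_option autoImplicit false

/-! ED-16: a sentence all of whose finite models are encoded structures and whose spectrum is not
ultimately periodic. -/

namespace Pool.Agent.Helper6.ED

open FirstOrder FirstOrder.Language Pool.Agent.Helper31.Spectra

/-- one kind, of arity `C + 2` -/
def s1 (C : ℕ) : Kn := ⟨Unit, inferInstance, fun _ => C + 2⟩

theorem not_periodic_ax (C D : ℕ) (hD0 : 0 < D) : ∃ φ : (LU (s1 C) D).Sentence,
    (∀ (M : Type) [(LU (s1 C) D).Structure M] [Finite M], φ.Realize M →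
      (toRw (s1 C) D M).Ax) ∧
    ¬ ∃ N p, 0 < p ∧ ∀ n, N ≤ n → (n ∈ Spec (LU (s1 C) D) φ ↔ n + p ∈ Spec (LU (s1 C) D) φ) := by
  obtain ⟨σ, hσ⟩ := ax_sentence (s1 C) D
  refine ⟨σ, fun U _ _ hU => (hσ U).1 hU, ?_⟩
  · rintro ⟨N, p, hp, hper⟩
    have hpos : ∀ m, 2 ≤ m → 0 < NN (s1 C) D m := by
      intro m hm
      unfold NN
      omega
    have hin : ∀ m, 2 ≤ m → NN (s1 C) D m ∈ Spec (LU (s1 C) D) σ := by
      intro m hm
      obtain ⟨U, A, hfU, hA, e, -⟩ := exists_encoded (s1 C) hD0 (Fin m) (by simpa using hm)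
        (fun _ _ => False)
      have hc : Nat.card {x : U // A.pt x} = m := by
        have := Nat.card_congr e
        rw [Nat.card_eq_fintype_card, Fintype.card_fin] at this
        exact this.symm
      refine ⟨hpos m hm, U, ofRw A, ?_, (@hσ U (ofRw A)).2 hA⟩
      rw [card_U A hA hD0, hc]
    have hout : ∀ n ∈ Spec (LU (s1 C) D) σ, ∃ m, n = NN (s1 C) D m := by
      rintro n ⟨hn, U, sU, hcU, hU⟩
      have hfU : Finite U := Nat.finite_of_card_ne_zero (by omega)
      exact ⟨_, hcU.symm.trans (card_U _ ((hσ U).1 hU) hD0)⟩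
    have hge : ∀ m, m ≤ NN (s1 C) D m := by
      intro m
      unfold NN
      omega
    set m := 2 + N + p with hm
    have h1 := (hper _ (le_trans (by omega) (hge m))).1 (hin m (by omega))
    obtain ⟨m', he⟩ := hout _ h1
    rcases Nat.lt_trichotomy m m' with hlt | heq | hgt
    · have := NN_gap (s1 C) hD0 () (by show 2 ≤ C + 2; omega) hlt
      omega
    · rw [heq] at he
      omega
    · have := NN_lt (s1 C) D hgt
      omega

end Pool.Agent.Helper6.ED
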