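import Mathlib
import Pool.Agent.Helper31.Spectra
import Pool.Agent.Helper32.PumpLang
import Pool.Agent.Helper6.ED.Graph
import Pool.Agent.Helper6.ED.Cut

set_option autoImplicit false

/-! ED-14: models with a large sparse part or with many nested cuts of bounded index can be
pumped. -/

namespace Pool.Agent.Helper6.ED

open FirstOrder FirstOrder.Language Pool.Agent.Helper31.Spectra Pool.Agent.Helper32.Pump

/-- a large sparse part contains many nested sets with at most two boundary elements -/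
theorem sparse_chain (N : ℕ) : ∃ C n₀ : ℕ, 0 < C ∧ ∀ (L : FirstOrder.Language.{0, 0}) (A : Type)
    [L.Structure A] [Finite A] (Y : Set A), n₀ ≤ Nat.card Y → SparsePart L A C Y →
    ∃ U : Fin (N + 1) → Set A, StrictMono U ∧ ∀ i, SmallBd (gaifman L A) (U i) := by
  obtain ⟨C, n₀, hC, h⟩ := graph_chain N
  refine ⟨C, n₀, hC, ?_⟩
  intro L A _ _ Y hn hY
  set G : SimpleGraph Y := (gaifman L A).comap Subtype.val with hG
  set Z : Set Y := {y | ∃ w, w ∉ Y ∧ Adj L A y.1 w} with hZ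
  have e1 : Nat.card Z = Nat.card {x : A // x ∈ Y ∧ ∃ y, y ∉ Y ∧ Adj L A x y} :=
    Nat.card_congr
      { toFun := fun z => ⟨z.1.1, z.1.2, z.2⟩
        invFun := fun x => ⟨⟨x.1, x.2.1⟩, x.2.2⟩
        left_inv := fun _ => rfl
        right_inv := fun _ => rfl }
  have e2 : Nat.card {p : Y × Y // G.Adj p.1 p.2} =
      Nat.card {p : A × A // p.1 ∈ Y ∧ p.2 ∈ Y ∧ Adj L A p.1 p.2} :=
    Nat.card_congr
      { toFun := fun p => ⟨(p.1.1.1, p.1.2.1), p.1.1.2, p.1.2.2, p.2⟩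
        invFun := fun p => ⟨(⟨p.1.1, p.2.1⟩, ⟨p.1.2, p.2.2.1⟩), p.2.2.2⟩
        left_inv := fun _ => rfl
        right_inv := fun _ => rfl }
  obtain ⟨U, hU1, hU2⟩ := h Y G Z hn (by rw [e1]; exact hY.1) (by rw [e2]; exact hY.2)
  refine ⟨fun i => Subtype.val '' U i, ?_, ?_⟩
  · intro i j hij
    have h1 := hU1 hij
    refine ⟨Set.image_mono h1.1, fun h2 => h1.2 fun x hx => ?_⟩
    obtain ⟨y, hy, hyx⟩ := h2 ⟨x, hx, rfl⟩
    rw [← Subtype.ext hyx]
    exact hy
  · intro i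
    obtain ⟨a, b, hab⟩ := hU2 i
    refine ⟨a.1, b.1, ?_⟩
    rintro _ ⟨u, hu, rfl⟩ w hw huw
    rcases hab u hu with h1 | h1 | ⟨h1, h2⟩
    · exact Or.inl (congrArg Subtype.val h1)
    · exact Or.inr (congrArg Subtype.val h1)
    · exfalso
      by_cases hwY : w ∈ Y
      · exact hw ⟨⟨w, hwY⟩, h2 ⟨w, hwY⟩ huw, rfl⟩
      · exact h1 ⟨w, hwY, huw⟩

/-- more labels -/
lemma cutIndex_mono {L : FirstOrder.Language.{0, 0}} {M : Type} [L.Structure M] {r r' : ℕ}
    (hr : r ≤ r') {U : Set M} (h : CutIndexLE L M r U) : CutIndexLE L M r' U := by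
  obtain ⟨c, hc⟩ := h
  exact ⟨fun x => Fin.castLE hr (c x), fun u hu u' hu' huu =>
    hc u hu u' hu' (Fin.castLE_injective hr huu)⟩

theorem pump_sparse (L : FirstOrder.Language.{0, 0}) (hf : ∀ n, IsEmpty (L.Functions n))
    (hR : Finite (Σ n, L.Relations n)) (φ : L.Sentence) (r : ℕ) :
    ∃ C N p n₀ : ℕ, 0 < C ∧ 0 < p ∧ ∀ (A : Type) [L.Structure A] [Finite A] [Nonempty A],
      φ.Realize A → (HasCutChain L A r N ∨ ∃ Y : Set A, n₀ ≤ Nat.card Y ∧ SparsePart L A C Y) →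
      ∀ j, Nat.card A + p * j ∈ Spec L φ := by
  obtain ⟨N, P, hP, hpump⟩ := pump_sentence hf hR φ (max r 3)
  obtain ⟨C, n₀, hC, hchain⟩ := sparse_chain N
  refine ⟨C, N, P, n₀, hC, hP, ?_⟩
  intro A _ _ _ hφ hA j
  have hcut : HasCutChain L A (max r 3) N := by
    rcases hA with ⟨U, hU1, hU2⟩ | ⟨Y, hY1, hY2⟩
    · exact ⟨U, hU1, fun i => cutIndex_mono (le_max_left _ _) (hU2 i)⟩
    · obtain ⟨U, hU1, hU2⟩ := hchain L A Y hY1 hY2
      exact ⟨U, hU1, fun i => cutIndex_mono (le_max_right _ _) (cutIndex_of_smallBd (hU2 i))⟩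
  obtain ⟨M', sM', hfM', hcard, hM'⟩ := hpump A hcut hφ j
  have hpos : 0 < Nat.card A := Nat.card_pos
  refine ⟨by omega, M', sM', ?_, hM'⟩
  rw [hcard, Nat.mul_comm]

/-- the whole structure is a sparse part if its average degree is small -/
theorem sparse_univ {L : FirstOrder.Language.{0, 0}} {A : Type} [L.Structure A] {C : ℕ}
    (h : AvgDegLE L A C) : SparsePart L A C Set.univ := by
  have e0 : Nat.card (Set.univ : Set A) = Nat.card A := Nat.card_congr (Equiv.Set.univ A)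
  have e1 : Nat.card {p : A × A // p.1 ∈ (Set.univ : Set A) ∧ p.2 ∈ (Set.univ : Set A) ∧
      Adj L A p.1 p.2} = Nat.card {p : A × A // Adj L A p.1 p.2} :=
    Nat.card_congr (Equiv.subtypeEquivRight fun p => by simp)
  refine ⟨?_, ?_⟩
  · have : IsEmpty {x : A // x ∈ (Set.univ : Set A) ∧ ∃ y, y ∉ (Set.univ : Set A) ∧
        Adj L A x y} := ⟨fun x => by
      obtain ⟨y, hy, -⟩ := x.2.2
      exact hy (Set.mem_univ _)⟩
    rw [Nat.card_of_isEmpty]
    omega
  · rw [e0, e1]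
    exact h

end Pool.Agent.Helper6.ED
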